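import Mathlib
import Pool.Agent.H362R2.RQ.Comb

set_option autoImplicit false

/-! The final combination. -/

namespace Pool.Agent.J6H13.RL

open Pool.Agent.H362R2.RQ

/-- the constant of the theorem -/
noncomputable def c0 (g : ℝ) : ℝ := kap / (256 * g)

theorem c0_pos (g : ℝ) (hg : 0 < g) : 0 < c0 g := by
  unfold c0
  have := kap_pos
  positivity

/-- the final combination -/
theorem combineRL (Mm sK sJ s b g Z K m lam Fm S1v Qv Tv Bv LB UB E1 E2 E3 E4 M₂ : ℝ)
    (hMm : 0 < Mm) (hs : 0 < s) (hb : 1 ≤ b) (hg : 0 < g) (hsK : 0 < sK) (hsJ : sJ * s = sK * b ^ 2)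
    (hZ : 1 ≤ Z) (hm : 1 ≤ m) (hK : 0 < K) (hlam : 0 ≤ lam)
    (hFm : Fm = 2 * K / m) (hml : 64 * g * lam * b ≤ kap * m)
    (hy1 : K * b ^ 2 / s ≤ b / (4 * g)) (hy2 : b / (16 * g) ≤ K * b ^ 2 / s)
    (hLB : LB = kap * (Z * Mm * sJ) - E2)
    (hUB : UB = Z * (Mm * (2 * (sK * (4 * g * b ^ 2 / s) ^ 2))) + E1)
    (H1 : S1v ≤ Z * (Mm * (2 * sK)) + E1) (H2 : K * LB - lam * (m * Fm ^ 2) * UB ≤ Qv)
    (H3 : Tv ≤ M₂ * (Mm * (2 * sK)) + E3) (H4 : Bv ≤ E4)
    (hE : K * E2 + lam * (m * Fm ^ 2) * E1 + c0 g * b * E1 + K * E3 + K * E4 ≤ c0 g * (Z * Mm * sK))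
    (hM₂ : K * M₂ ≤ c0 g * Z) :
    0 < Qv - c0 g * b * S1v - K * Tv - K * Bv := by
  set P := Z * Mm * sK with hP
  have hb0 : 0 < b := by linarith
  have hm0 : 0 < m := by linarith
  have hkap := kap_pos
  have hPpos : 0 < P := by rw [hP]; positivity
  have hη := c0_pos g hg
  set y := K * b ^ 2 / s with hy
  have hypos : 0 < y := by rw [hy]; positivity
  have e1 : K * LB = kap * y * P - K * E2 := by
    have h1 : sJ = sK * b ^ 2 / s := by
      rw [eq_div_iff hs.ne']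
      exact hsJ
    rw [hLB, hP, h1, hy]
    ring
  have e2 : lam * (m * Fm ^ 2) * UB = (128 * lam * g ^ 2 * y ^ 2 / m) * P + lam * (m * Fm ^ 2) * E1 := by
    have hUB2 : UB = 32 * g ^ 2 * b ^ 4 / s ^ 2 * P + E1 := by
      rw [hUB, hP]
      field_simp
      ring
    rw [hUB2, mul_add]
    congr 1
    rw [hFm, hy]
    field_simp
    ring
  have e3 : 128 * lam * g ^ 2 * y ^ 2 / m ≤ kap * y / 2 := by
    rw [div_le_iff₀ hm0]
    have h1 : y * g ≤ b / 4 := by
      calc y * g ≤ b / (4 * g) * g := mul_le_mul_of_nonneg_right hy1 hg.le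
        _ = b / 4 := by field_simp
    calc 128 * lam * g ^ 2 * y ^ 2 = 128 * lam * g * y * (y * g) := by ring
      _ ≤ 128 * lam * g * y * (b / 4) := mul_le_mul_of_nonneg_left h1 (by positivity)
      _ = y / 2 * (64 * g * lam * b) := by ring
      _ ≤ y / 2 * (kap * m) := mul_le_mul_of_nonneg_left hml (by positivity)
      _ = _ := by ring
  have e4 : 8 * (c0 g * b) ≤ kap * y / 2 := by
    unfold c0
    have h1 : kap * (b / (16 * g)) ≤ kap * y := mul_le_mul_of_nonneg_left hy2 hkap.le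
    calc 8 * (kap / (256 * g) * b) = kap * (b / (16 * g)) / 2 := by field_simp; norm_num
      _ ≤ _ := by linarith
  have h1 : 8 * (c0 g * b) * P - K * E2 - lam * (m * Fm ^ 2) * E1 ≤ Qv := by
    refine le_trans ?_ H2
    rw [e1, e2]
    have h2 : (8 * (c0 g * b) + 128 * lam * g ^ 2 * y ^ 2 / m) * P ≤ kap * y * P := by
      apply mul_le_mul_of_nonneg_right _ hPpos.le
      linarith
    have h3 : (8 * (c0 g * b) + 128 * lam * g ^ 2 * y ^ 2 / m) * P =
        8 * (c0 g * b) * P + (128 * lam * g ^ 2 * y ^ 2 / m) * P := by ring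
    linarith
  have hcb : 0 < c0 g * b := by positivity
  have h2 : c0 g * b * S1v ≤ 2 * (c0 g * b * P) + c0 g * b * E1 := by
    have := mul_le_mul_of_nonneg_left H1 hcb.le
    refine this.trans (le_of_eq ?_)
    rw [hP]; ring
  have h3 : K * Tv ≤ 2 * (c0 g * P) + K * E3 := by
    have h4 := mul_le_mul_of_nonneg_left H3 hK.le
    have h5 : K * M₂ * (Mm * (2 * sK)) ≤ c0 g * Z * (Mm * (2 * sK)) :=
      mul_le_mul_of_nonneg_right hM₂ (by positivity)
    calc K * Tv ≤ K * (M₂ * (Mm * (2 * sK)) + E3) := h4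
      _ = K * M₂ * (Mm * (2 * sK)) + K * E3 := by ring
      _ ≤ c0 g * Z * (Mm * (2 * sK)) + K * E3 := by linarith
      _ = _ := by rw [hP]; ring
  have h4 : K * Bv ≤ K * E4 := mul_le_mul_of_nonneg_left H4 hK.le
  have h5 : c0 g * P ≤ c0 g * b * P := by
    have : c0 g * P * 1 ≤ c0 g * P * b := mul_le_mul_of_nonneg_left hb (by positivity)
    linarith
  have h6 : 0 < c0 g * P := by positivity
  have h7 : 8 * (c0 g * b) * P = 8 * (c0 g * b * P) := by ring
  rw [h7] at h1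
  linarith

end Pool.Agent.J6H13.RL
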