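import Pool.Agent.J6H13.RL.Ord

/-! Asymptotic form. -/

set_option autoImplicit false

namespace Pool.Agent.J6H13.RL

open Finset Filter
open Pool.Agent.H256R2.SC (ff)

theorem fact_le {c k : ℕ} (h : c ≤ k) : k.factorial ≤ c.factorial * k ^ (k - c) := by
  obtain ⟨d, rfl⟩ := Nat.exists_eq_add_of_le h
  rw [Nat.add_sub_cancel_left, ← Nat.factorial_mul_ascFactorial]
  exact Nat.mul_le_mul_left _ (Nat.ascFactorial_le_pow_add c d)

/-- choice of the parameters -/
theorem choose_par {C₁ c₀ : ℝ} (hC₁ : 0 < C₁) (hc₀ : 0 < c₀) : ∃ D : ℝ, 0 < D ∧ ∀ (k : ℕ) (lam : ℝ), 1 ≤ k →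
    1 ≤ lam → lam ≤ k + 2 → ∃ B b : ℕ, 1 ≤ B ∧ b ≤ B ∧ C₁ * lam * B ≤ 2 ^ b ∧ (k : ℝ) + 1 ≤ c₀ * B ∧
      (2 : ℝ) ^ b ≤ D * lam * k + 2 := by
  -- `2 ^ B ≥ C₁ (c₀ B + 2) B` for large `B`
  have h1 : ∀ᶠ B : ℕ in atTop, (C₁ * (c₀ * B + 2) * B + 1 : ℝ) ≤ 2 ^ B := by
    have h2 : Tendsto (fun n : ℕ => (n : ℝ) ^ 2 / 2 ^ n) atTop (nhds 0) :=
      tendsto_pow_const_div_const_pow_of_one_lt 2 (by norm_num)
    have h3 := h2.eventually (ge_mem_nhds (show (0 : ℝ) < 1 / (C₁ * (c₀ + 2) + 1) by positivity))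
    filter_upwards [h3, eventually_ge_atTop 1] with B hB hB1
    have hB1' : (1 : ℝ) ≤ B := by exact_mod_cast hB1
    rw [div_le_div_iff₀ (by positivity) (by positivity), one_mul] at hB
    have h4 : C₁ * (c₀ * B + 2) * B + 1 ≤ (B : ℝ) ^ 2 * (C₁ * (c₀ + 2) + 1) := by
      have e1 : (B : ℝ) ^ 2 * (C₁ * (c₀ + 2) + 1) = C₁ * (c₀ * B + 2 * B) * B + B ^ 2 := by ring
      rw [e1]
      have e2 : C₁ * (c₀ * B + 2) * B ≤ C₁ * (c₀ * B + 2 * B) * B := by
        apply mul_le_mul_of_nonneg_right _ (by linarith)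
        apply mul_le_mul_of_nonneg_left _ hC₁.le
        linarith
      nlinarith
    linarith
  obtain ⟨B₁, hB₁⟩ := eventually_atTop.1 h1
  refine ⟨2 * C₁ * (B₁ + 2 / c₀ + 2), by positivity, ?_⟩
  intro k lam hk hlam hlamk
  have hk1 : (1 : ℝ) ≤ k := by exact_mod_cast hk
  obtain ⟨m, hm⟩ : ∃ m, m = ⌈((k : ℝ) + 1) / c₀⌉₊ := ⟨_, rfl⟩
  obtain ⟨B, hB⟩ : ∃ B, B = max B₁ (m + 1) := ⟨_, rfl⟩
  have hB1 : 1 ≤ B := by rw [hB]; exact (Nat.le_add_left 1 _).trans (le_max_right _ _)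
  have hB1' : (1 : ℝ) ≤ B := by exact_mod_cast hB1
  have hBk : (k : ℝ) + 1 ≤ c₀ * B := by
    have h2 : ((k : ℝ) + 1) / c₀ ≤ B := by
      refine (Nat.le_ceil _).trans ?_
      rw [← hm]
      have h3 : m ≤ B := by rw [hB]; exact (Nat.le_succ _).trans (le_max_right B₁ (m + 1))
      exact_mod_cast h3
    rw [div_le_iff₀ hc₀] at h2
    linarith
  have hBle : (B : ℝ) ≤ (B₁ + 2 / c₀ + 2) * k := by
    have h2 : B ≤ B₁ + (m + 1) := by
      rw [hB]
      exact max_le (Nat.le_add_right _ _) (Nat.le_add_left _ _)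
    have h3 : (B : ℝ) ≤ B₁ + (m + 1) := by exact_mod_cast h2
    have h4 : (m : ℝ) < ((k : ℝ) + 1) / c₀ + 1 := by rw [hm]; exact Nat.ceil_lt_add_one (by positivity)
    have h5 : ((k : ℝ) + 1) / c₀ ≤ 2 / c₀ * k := by
      rw [div_mul_eq_mul_div]
      apply div_le_div_of_nonneg_right _ hc₀.le
      linarith
    have h6 : (B₁ : ℝ) ≤ B₁ * k := by
      have : (0 : ℝ) ≤ B₁ := Nat.cast_nonneg _
      nlinarith
    nlinarith
  set n := ⌈C₁ * lam * B⌉₊ with hn
  have hx0 : 0 ≤ C₁ * lam * B := by positivity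
  have hn1 : C₁ * lam * B ≤ n := Nat.le_ceil _
  have hn2 : (n : ℝ) < C₁ * lam * B + 1 := Nat.ceil_lt_add_one hx0
  refine ⟨B, Nat.clog 2 n, hB1, ?_, ?_, hBk, ?_⟩
  · apply Nat.clog_le_of_le_pow
    have h2 : (n : ℝ) ≤ 2 ^ B := by
      have h3 := hB₁ B (by rw [hB]; exact le_max_left _ _)
      have h4 : C₁ * lam * B ≤ C₁ * (c₀ * B + 2) * B := by
        apply mul_le_mul_of_nonneg_right _ (by linarith)
        apply mul_le_mul_of_nonneg_left _ hC₁.le
        linarith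
      linarith
    exact_mod_cast h2
  · refine hn1.trans ?_
    exact_mod_cast Nat.le_pow_clog (by norm_num) n
  · have h2 : (2 : ℝ) ^ (Nat.clog 2 n) ≤ 2 * (C₁ * lam * B + 1) := by
      rcases Nat.lt_or_ge 1 n with h | h
      · have h3 := Nat.pow_pred_clog_lt_self (b := 2) (by norm_num) h
        have h4 : 0 < Nat.clog 2 n := Nat.clog_pos (by norm_num) h
        have h5 : 2 ^ (Nat.clog 2 n) = 2 * 2 ^ (Nat.clog 2 n).pred := by
          rw [← pow_succ', ← Nat.succ_eq_add_one, Nat.succ_pred_eq_of_pos h4]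
        have h6 : (2 : ℝ) ^ (Nat.clog 2 n) ≤ 2 * n := by
          have : 2 ^ (Nat.clog 2 n) ≤ 2 * n := by
            rw [h5]
            exact Nat.mul_le_mul_left _ h3.le
          exact_mod_cast this
        linarith
      · rw [Nat.clog_of_right_le_one h, pow_zero]
        linarith
    have h3 : C₁ * lam * B ≤ C₁ * lam * ((B₁ + 2 / c₀ + 2) * k) :=
      mul_le_mul_of_nonneg_left hBle (by positivity)
    have e1 : 2 * C₁ * (B₁ + 2 / c₀ + 2) * lam * k + 2 = 2 * (C₁ * lam * ((B₁ + 2 / c₀ + 2) * k) + 1) := by ring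
    rw [e1]
    linarith

open Classical in
/-- many orders -/
theorem many_orders (h : StRL) : ∃ C : ℝ, 0 < C ∧ ∀ k : ℕ, 1 ≤ k → ∃ δ : ℝ, 0 < δ ∧ ∀ q a : ℕ, Squarefree q →
    a.Coprime q → ∃ X₀ : ℝ, ∀ X : ℝ, X₀ ≤ X → ∀ H : ℝ, Real.log X ≤ H → H ≤ δ * ff X →
      (k.factorial : ℝ) * Real.exp (-(C * k * Real.sqrt (Real.log k))) ≤
        (((univ : Finset (Equiv.Perm (Fin k))).filter
        (fun π => X ^ (7 / 8 : ℝ) ≤ ((Occ k q a δ X H π).ncard : ℝ))).card : ℝ) := by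
  obtain ⟨C₁, c₀, hC₁, hc₀, hmain⟩ := orders_of h
  obtain ⟨D, hD, hpar⟩ := choose_par hC₁ hc₀
  refine ⟨20 + 5 * D, by positivity, ?_⟩
  intro k hk
  have hk1 : (1 : ℝ) ≤ k := by exact_mod_cast hk
  set L := Real.log k with hL
  have hL0 : 0 ≤ L := Real.log_nonneg hk1
  set s := Real.sqrt L with hs
  have hs0 : 0 ≤ s := Real.sqrt_nonneg _
  have hsL : s * s = L := Real.mul_self_sqrt hL0
  have hLk : L ≤ k - 1 := Real.log_le_sub_one_of_pos (by linarith)
  have hsk : s ≤ k := by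
    rw [hs, Real.sqrt_le_left (by linarith)]
    nlinarith
  obtain ⟨B, b, hB1, hbB, hb1, hBk, hb2⟩ := hpar k (2 + s) hk (by linarith) (by linarith)
  set lam := 2 + s with hlam
  have hlam2 : 2 ≤ lam := by linarith
  have hlam0 : 0 < lam := by linarith
  set c := ⌊(k : ℝ) - 2 * k / lam⌋₊ with hcd
  have h0 : 0 ≤ (k : ℝ) - 2 * k / lam := by
    have : 2 * k / lam ≤ (k : ℝ) := by
      rw [div_le_iff₀ hlam0]
      nlinarith
    linarith
  have hc : (c : ℝ) ≤ k - 2 * k / lam := Nat.floor_le h0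
  have hc2 : (k : ℝ) - 2 * k / lam < c + 1 := Nat.lt_floor_add_one _
  have hck : c ≤ k := by
    have h1 : 0 ≤ 2 * (k : ℝ) / lam := by positivity
    have : (c : ℝ) ≤ k := by linarith
    exact_mod_cast this
  set N := 2 ^ b - 1 with hN
  have hN1 : N + 1 = 2 ^ b := Nat.sub_add_cancel Nat.one_le_two_pow
  have hNR : (N : ℝ) + 1 = 2 ^ b := by exact_mod_cast hN1
  obtain ⟨δ, hδ, hδ2⟩ := hmain k c N B b lam hk hB1 hbB (by linarith) hN1 hb1 hBk hc
  refine ⟨δ, hδ, fun q a hq ha => ?_⟩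
  obtain ⟨X₀, hX₀⟩ := hδ2 q a hq ha
  refine ⟨X₀, fun X hX H hH1 hH2 => ?_⟩
  have hfin := hX₀ X hX H hH1 hH2
  set P := ((univ : Finset (Equiv.Perm (Fin k))).filter
        (fun π => X ^ (7 / 8 : ℝ) ≤ ((Occ k q a δ X H π).ncard : ℝ))).card with hP
  have hPpos : 1 ≤ P := by
    by_contra hcon
    push Not at hcon
    have h1 : P = 0 := by omega
    rw [h1, zero_mul] at hfin
    exact absurd (Nat.factorial_pos c) (by omega)
  have hP' : (0 : ℝ) < P := by exact_mod_cast hPpos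
  rcases Nat.lt_or_ge k 2 with h2 | h2
  · have h3 : k = 1 := by omega
    have h4 : L = 0 := by rw [hL, h3, Nat.cast_one, Real.log_one]
    have h5 : s = 0 := by rw [hs, h4, Real.sqrt_zero]
    rw [h5, mul_zero, neg_zero, Real.exp_zero, mul_one, h3, Nat.factorial_one]
    exact_mod_cast hPpos
  · have hk2 : (2 : ℝ) ≤ k := by exact_mod_cast h2
    have hlog2 : Real.log 2 ≤ 1 := by
      have := Real.log_two_lt_d9
      linarith
    have hlog20 : 0 ≤ Real.log 2 := Real.log_nonneg (by norm_num)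
    have hlog2' : 0.69 < Real.log 2 := by
      have := Real.log_two_gt_d9
      linarith
    have hL2 : 0.69 < L := hlog2'.trans_le (Real.log_le_log (by norm_num) hk2)
    have hs1 : 0.83 ≤ s := by
      rw [hs]
      apply Real.le_sqrt_of_sq_le
      norm_num
      linarith
    have hf : (0 : ℝ) < k.factorial := by exact_mod_cast Nat.factorial_pos k
    have h1 : Real.log c.factorial ≤ Real.log P + (k + N) * Real.log 2 := by
      have h2 : (c.factorial : ℝ) ≤ P * 2 ^ (k + N) := by exact_mod_cast hfin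
      have h3 := Real.log_le_log (by exact_mod_cast Nat.factorial_pos c) h2
      rw [Real.log_mul hP'.ne' (by positivity), Real.log_pow] at h3
      push_cast at h3
      exact h3
    have h3 : Real.log k.factorial ≤ Real.log c.factorial + (k - c) * Real.log k := by
      have h3 : (k.factorial : ℝ) ≤ c.factorial * (k : ℝ) ^ (k - c) := by exact_mod_cast fact_le hck
      have h4 := Real.log_le_log (by exact_mod_cast Nat.factorial_pos k) h3
      have hcf : (0 : ℝ) < c.factorial := by exact_mod_cast Nat.factorial_pos c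
      rw [Real.log_mul hcf.ne' (by positivity), Real.log_pow, Nat.cast_sub hck] at h4
      exact h4
    have h4 : ((k : ℝ) - c) * L ≤ (2 * k / lam + 1) * L :=
      mul_le_mul_of_nonneg_right (by linarith) hL0
    have e1 : 2 * k / lam * L ≤ 2 * (k * s) := by
      rw [div_mul_eq_mul_div, div_le_iff₀ (by linarith), ← hsL]
      have : 0 ≤ (k : ℝ) * s := by positivity
      nlinarith
    have e2 : L ≤ k * s := by
      rw [← hsL]
      exact mul_le_mul_of_nonneg_right hsk hs0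
    have e3 : (k : ℝ) * 0.83 ≤ k * s := mul_le_mul_of_nonneg_left hs1 (by linarith)
    have e4 : ((k : ℝ) + N) * Real.log 2 ≤ k + D * lam * k + 2 := by
      have h5 : (k : ℝ) + N ≤ k + D * lam * k + 2 := by linarith
      calc ((k : ℝ) + N) * Real.log 2 ≤ ((k : ℝ) + N) * 1 := mul_le_mul_of_nonneg_left hlog2 (by positivity)
        _ ≤ _ := by rw [mul_one]; exact h5
    have e5 : D * lam * k ≤ 4 * D * (k * s) := by
      have h5 : D * (k * 0.83) ≤ D * (k * s) := mul_le_mul_of_nonneg_left e3 hD.le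
      have h6 : D * lam * k = 2 * (D * k) + D * (k * s) := by rw [hlam]; ring
      have h7 : 0 ≤ D * (k * s) := by positivity
      rw [h6]
      nlinarith
    have e6 : (2 * k / lam + 1) * L = 2 * k / lam * L + L := by ring
    have e7 : (20 + 5 * D) * k * s = 20 * (k * s) + 5 * (D * (k * s)) := by ring
    have e8 : 0 ≤ D * (k * s) := by positivity
    have e9 : Real.log k.factorial ≤ Real.log P + (20 + 5 * D) * k * s := by
      rw [e7]
      linarith
    rw [← Real.log_le_log_iff (by positivity) hP', Real.log_mul hf.ne' (Real.exp_pos _).ne',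
      Real.log_exp]
    linarith

end Pool.Agent.J6H13.RL
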