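import Pool.Agent.H362R2.RQ.Pair2
import Pool.Agent.H362R2.RQ.Col
import Pool.Agent.TH779.Ord.Fn

set_option autoImplicit false

/-! The detector with a penalty for several primes of the same colour. -/

open Finset Filter

namespace Pool.Agent.J6H13.RL

open Pool.Agent.H378R2 Pool.Agent.H362R2.RQ
open Pool.Agent.TH779.Ord (fn)

/-- the detector -/
noncomputable def QL {K m : ℕ} (lam : ℝ) (col : Fin K → Fin m) (θ : Fin K → ℝ) : ℝ :=
  ∑ i, θ i - lam * ∑ i, ∑ j ∈ oth col i, θ i * θ j

theorem QL_le_sum {K m : ℕ} (lam : ℝ) (hlam : 0 ≤ lam) (col : Fin K → Fin m)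
    (θ : Fin K → ℝ) (h0 : ∀ i, 0 ≤ θ i) : QL lam col θ ≤ ∑ i, θ i := by
  unfold QL
  have h1 : 0 ≤ ∑ i, ∑ j ∈ oth col i, θ i * θ j :=
    Finset.sum_nonneg fun i _ => Finset.sum_nonneg fun j _ => mul_nonneg (h0 i) (h0 j)
  have := mul_nonneg hlam h1
  linarith

theorem oth_card {K m : ℕ} (col : Fin K → Fin m) (i : Fin K) :
    (oth col i).card = fib col (col i) - 1 := by
  have h1 : oth col i = (univ.filter (fun j => col j = col i)).erase i := by
    ext j
    unfold oth
    rw [mem_filter, mem_erase, mem_filter]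
    constructor
    · rintro ⟨_, h1, h2⟩
      exact ⟨fun h => h1 h.symm, mem_univ _, h2⟩
    · rintro ⟨h1, _, h2⟩
      exact ⟨mem_univ _, fun h => h1 h.symm, h2⟩
  have h2 : i ∈ univ.filter (fun j => col j = col i) := mem_filter.2 ⟨mem_univ _, rfl⟩
  rw [h1, Finset.card_erase_of_mem h2]
  rfl

/-- the detector is at most the penalised count -/
theorem QL_le {K m : ℕ} (lam : ℝ) (hlam : 0 ≤ lam) (col : Fin K → Fin m)
    (θ : Fin K → ℝ) (pr : Fin K → Prop) [DecidablePred pr]
    (h1 : ∀ i, pr i → 1 / 2 ≤ θ i) (h2 : ∀ i, pr i → θ i ≤ 1) (h3 : ∀ i, ¬ pr i → θ i = 0) :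
    QL (4 * lam) col θ ≤ ∑ d : Fin m, fn lam (univ.filter (fun i => col i = d ∧ pr i)).card := by
  classical
  set χ : Fin K → ℝ := fun i => if pr i then 1 else 0 with hχ
  have hle : ∀ i, θ i ≤ χ i := by
    intro i
    simp only [hχ]
    split_ifs with h
    · exact h2 i h
    · exact (h3 i h).le
  have hge : ∀ i j, χ i * χ j ≤ 4 * (θ i * θ j) := by
    intro i j
    simp only [hχ]
    by_cases hi : pr i
    · by_cases hj : pr j
      · rw [if_pos hi, if_pos hj]
        have a := h1 i hi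
        have b := h1 j hj
        nlinarith
      · rw [if_neg hj, h3 j hj]; simp
    · rw [if_neg hi, h3 i hi]; simp
  have hN : ∀ d : Fin m, ((univ.filter (fun i => col i = d ∧ pr i)).card : ℝ) =
      ∑ i ∈ univ.filter (fun i => col i = d), χ i := by
    intro d
    rw [← filter_filter, card_filter]
    push_cast
    rfl
  have hsum : ∑ i, χ i = ∑ d : Fin m, ((univ.filter (fun i => col i = d ∧ pr i)).card : ℝ) := by
    rw [Finset.sum_congr rfl (fun d _ => hN d), Finset.sum_fiberwise univ col (fun i => χ i)]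
  have hpair : ∑ i, ∑ j ∈ oth col i, χ i * χ j =
      ∑ d : Fin m, ((univ.filter (fun i => col i = d ∧ pr i)).card : ℝ) *
        (((univ.filter (fun i => col i = d ∧ pr i)).card : ℝ) - 1) := by
    rw [← Finset.sum_fiberwise univ col (fun i => ∑ j ∈ oth col i, χ i * χ j)]
    apply Finset.sum_congr rfl
    intro d _
    set N : ℝ := ((univ.filter (fun i => col i = d ∧ pr i)).card : ℝ) with hNd
    have e1 : ∀ i ∈ univ.filter (fun i => col i = d), ∑ j ∈ oth col i, χ i * χ j = χ i * (N - 1) := by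
      intro i hi
      have hid : col i = d := (mem_filter.1 hi).2
      have e2 : ∑ j ∈ univ.filter (fun j => col j = d), χ j = χ i + ∑ j ∈ oth col i, χ j := by
        have e3 : oth col i = (univ.filter (fun j => col j = d)).erase i := by
          ext j
          unfold oth
          rw [mem_filter, mem_erase, mem_filter, hid]
          constructor
          · rintro ⟨_, h1, h2⟩
            exact ⟨fun h => h1 h.symm, mem_univ _, h2⟩
          · rintro ⟨h1, _, h2⟩
            exact ⟨mem_univ _, fun h => h1 h.symm, h2⟩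
        rw [e3, Finset.add_sum_erase _ _ hi]
      rw [← Finset.mul_sum]
      have e4 : ∑ j ∈ oth col i, χ j = N - χ i := by
        rw [hNd, hN d, e2]; ring
      rw [e4]
      by_cases h : pr i
      · have : χ i = 1 := by simp only [hχ, if_pos h]
        rw [this]
      · have : χ i = 0 := by simp only [hχ, if_neg h]
        rw [this]; ring
    rw [Finset.sum_congr rfl e1, ← Finset.sum_mul, ← hN d]
  unfold QL
  have hA : ∑ i, θ i ≤ ∑ i, χ i := Finset.sum_le_sum fun i _ => hle i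
  have hB : ∑ i, ∑ j ∈ oth col i, χ i * χ j ≤ 4 * ∑ i, ∑ j ∈ oth col i, θ i * θ j := by
    rw [Finset.mul_sum]
    apply Finset.sum_le_sum
    intro i _
    rw [Finset.mul_sum]
    exact Finset.sum_le_sum fun j _ => hge i j
  have hC : ∑ d : Fin m, fn lam (univ.filter (fun i => col i = d ∧ pr i)).card =
      ∑ i, χ i - lam * ∑ i, ∑ j ∈ oth col i, χ i * χ j := by
    rw [hsum, hpair, Finset.mul_sum, ← Finset.sum_sub_distrib]
    rfl
  rw [hC]
  have hD := mul_le_mul_of_nonneg_left hB hlam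
  linarith

/-- weighted sum of the detector -/
theorem sum_QL {K m : ℕ} (lam : ℝ) (hlam : 0 ≤ lam) (col : Fin K → Fin m) (Fm : ℝ)
    (hfib : ∀ d, (fib col d : ℝ) ≤ Fm)
    (I : Finset ℕ) (Wn : ℕ → ℝ) (θ : ℕ → Fin K → ℝ) (LB UB : ℝ) (hUB : 0 ≤ UB)
    (h1 : ∀ i, LB ≤ ∑ n ∈ I, Wn n * θ n i)
    (h2 : ∀ i j, i ≠ j → ∑ n ∈ I, Wn n * (θ n i * θ n j) ≤ UB) :
    K * LB - lam * (m * Fm ^ 2) * UB ≤ ∑ n ∈ I, Wn n * QL lam col (θ n) := by
  classical
  have e1 : ∑ n ∈ I, Wn n * QL lam col (θ n) = ∑ i, ∑ n ∈ I, Wn n * θ n i -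
      lam * ∑ i, ∑ j ∈ oth col i, ∑ n ∈ I, Wn n * (θ n i * θ n j) := by
    have e2 : ∀ n, Wn n * QL lam col (θ n) = ∑ i, Wn n * θ n i -
        lam * ∑ i, ∑ j ∈ oth col i, Wn n * (θ n i * θ n j) := by
      intro n
      unfold QL
      rw [mul_sub, Finset.mul_sum]
      congr 1
      rw [← mul_assoc, mul_comm (Wn n) lam, mul_assoc, Finset.mul_sum]
      congr 1
      refine Finset.sum_congr rfl fun i _ => ?_
      rw [Finset.mul_sum]
    rw [Finset.sum_congr rfl (fun n _ => e2 n), Finset.sum_sub_distrib, Finset.sum_comm, ← Finset.mul_sum]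
    congr 2
    rw [Finset.sum_comm]
    refine Finset.sum_congr rfl fun i _ => ?_
    rw [Finset.sum_comm]
  rw [e1]
  have e3 : (K : ℝ) * LB ≤ ∑ i, ∑ n ∈ I, Wn n * θ n i := by
    have : (K : ℝ) * LB = ∑ _i : Fin K, LB := by
      rw [Finset.sum_const, Finset.card_univ, Fintype.card_fin, nsmul_eq_mul]
    rw [this]
    exact Finset.sum_le_sum fun i _ => h1 i
  have hF0 : ∀ d : Fin m, (0 : ℝ) ≤ fib col d := fun d => Nat.cast_nonneg _
  have e5 : ∑ i : Fin K, ((oth col i).card : ℝ) ≤ m * Fm ^ 2 := by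
    rw [← Finset.sum_fiberwise univ col (fun i => ((oth col i).card : ℝ))]
    have h3 : ∀ d : Fin m, ∑ i ∈ univ.filter (fun i => col i = d), ((oth col i).card : ℝ) ≤ Fm ^ 2 := by
      intro d
      have h4 : ∀ i ∈ univ.filter (fun i => col i = d), ((oth col i).card : ℝ) ≤ fib col d := by
        intro i hi
        rw [oth_card, (mem_filter.1 hi).2]
        exact_mod_cast Nat.sub_le _ _
      refine (Finset.sum_le_sum h4).trans ?_
      rw [Finset.sum_const, nsmul_eq_mul]
      have h5 : ((univ.filter (fun i => col i = d)).card : ℝ) = fib col d := rfl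
      rw [h5, sq]
      exact mul_le_mul (hfib d) (hfib d) (hF0 d) ((hF0 d).trans (hfib d))
    refine (Finset.sum_le_sum fun d _ => h3 d).trans (le_of_eq ?_)
    rw [Finset.sum_const, Finset.card_univ, Fintype.card_fin, nsmul_eq_mul]
  have e4 : ∑ i, ∑ j ∈ oth col i, ∑ n ∈ I, Wn n * (θ n i * θ n j) ≤ m * Fm ^ 2 * UB := by
    calc ∑ i, ∑ j ∈ oth col i, ∑ n ∈ I, Wn n * (θ n i * θ n j)
        ≤ ∑ i, ∑ _j ∈ oth col i, UB := by
          refine Finset.sum_le_sum fun i _ => Finset.sum_le_sum fun j hj => ?_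
          unfold oth at hj
          exact h2 i j (Finset.mem_filter.1 hj).2.1
      _ = (∑ i : Fin K, ((oth col i).card : ℝ)) * UB := by
          rw [Finset.sum_mul]
          refine Finset.sum_congr rfl fun i _ => ?_
          rw [Finset.sum_const, nsmul_eq_mul]
      _ ≤ _ := mul_le_mul_of_nonneg_right e5 hUB
  have e6 := mul_le_mul_of_nonneg_left e4 hlam
  have e7 : lam * (m * Fm ^ 2) * UB = lam * (m * Fm ^ 2 * UB) := by ring
  rw [e7]
  linarith

end Pool.Agent.J6H13.RL
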