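import Pool.Agent.H312R2.RG.A
import Pool.Agent.H362R2.RQ.Main
import Pool.Agent.J6H13.RL.Fam
import Pool.Agent.J6H13.RL.Pos

set_option autoImplicit false

/-! The coloured Maynard-Tao theorem inside the record windows, with a penalty for several primes of the same
colour: adapted from `Pool.Agent.H362R2.RQ.Main` (starting files, helper362). -/

open Finset Filter
open scoped ContDiff

namespace Pool.Agent.J6H13.RL

open Pool.Agent.H378R2 Pool.Agent.H362R2.RQ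
open Pool.Agent.H312R2.RG
open Pool.Agent.H398R2.PG (Et EE_sub_Et Et_res)
open Pool.Agent.H256R2.SC (ff)

open Pool.Agent.TH779.Ord (fn)

/-- the coloured Maynard-Tao theorem inside the record windows, with a penalty for several primes of the same
colour -/
def StRL : Prop := ∃ C₁ c₀ : ℝ, 0 < C₁ ∧ 0 < c₀ ∧ ∀ (B m : ℕ) (lam : ℝ), 1 ≤ B → 1 ≤ m → 1 ≤ lam →
  C₁ * lam * B ≤ m → ∃ c : ℝ, 0 < c ∧
  ∀ z : ℕ, ∃ X0 : ℝ, ∀ X : ℝ, X0 ≤ X →
  ∀ t : Fin (2 ^ B) → ℕ, Function.Injective t →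
  (∀ j, (t j).Prime ∧ yy X < t j ∧ (t j : ℝ) ≤ c * ff X) →
  ∀ col : Fin (2 ^ B) → Fin m, (∀ d, m * fib col d ≤ 2 * 2 ^ B) →
  ∀ bad : Finset ℕ, (bad.card : ℝ) ≤ X ^ (9 / 10 : ℝ) →
  ∃ n : ℕ, X < n ∧ (n : ℝ) ≤ 3 * X ∧ n ∉ bad ∧
    c₀ * B ≤ ∑ d : Fin m, fn lam (univ.filter (fun j => col j = d ∧ (n + t j).Prime)).card ∧
    (∀ s : ℕ, (s : ℝ) ≤ c * ff X → (n + s).Prime → ∃ j, s = t j) ∧
    ∀ p : ℕ, p.Prime → p ≤ z → p ∣ n

theorem rl_of (h5 : Pool.Agent.H378R2.SieveAsymp) (hbv : Pool.Agent.H378R2.BVrel) (hcov : CovR0)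
    (hw : Weights) : StRL := by
  classical
  have hg := gam_pos
  have hη := c0_pos gam hg
  have hkap := kap_pos
  refine ⟨256 * gam / kap, c0 gam, by positivity, hη, ?_⟩
  intro B m lam hB hm hlam hml0
  obtain ⟨K0, f, c, A, rho, s, hK0, hsm, hcs, hf0, hc, hA, hf1, hf00, hrho, hsr, hDD, hs0, hsle, hIpos, hIle, hJ,
    hsge⟩ := familyL B hB
  rw [← hK0]
  have hA1 : ∀ a ∈ A, ∑ j, c (a j) ≤ 1 := fun a ha => (hA a ha).trans (by norm_num)
  have hmr : (1 : ℝ) ≤ m := by exact_mod_cast hm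
  have hmr0 : (0 : ℝ) < m := by linarith
  have hBr1 : (1 : ℝ) ≤ B := by exact_mod_cast hB
  have hBr0 : (0 : ℝ) < B := by linarith
  have hKpos : (0 : ℝ) < ((K0 + 1 : ℕ) : ℝ) := by positivity
  obtain ⟨L, hL⟩ : ∃ L : ℝ, L = 4 * lam := ⟨_, rfl⟩
  have hL0 : 0 ≤ L := by rw [hL]; linarith
  have hmlL : 64 * gam * L * B ≤ kap * m := by
    rw [hL]
    calc 64 * gam * (4 * lam) * B = kap * (256 * gam / kap * lam * B) := by field_simp; norm_num
      _ ≤ kap * m := mul_le_mul_of_nonneg_left hml0 hkap.le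
  obtain ⟨Fm, hFm⟩ : ∃ Fm : ℝ, Fm = 2 * ((K0 + 1 : ℕ) : ℝ) / m := ⟨_, rfl⟩
  have hFmpos : 0 < Fm := by rw [hFm]; positivity
  have hKB : ((K0 + 1 : ℕ) : ℝ) = 2 ^ B := by rw [hK0]; push_cast; rfl
  have hK2 : ((K0 + 1 : ℕ) : ℝ) ≤ 2 * K0 := by
    have h1 : K0 + 1 ≤ 2 * K0 := by
      have h2 : 2 ^ 1 ≤ 2 ^ B := Nat.pow_le_pow_right (by norm_num) hB
      omega
    exact_mod_cast h1
  have hy1 : ((K0 + 1 : ℕ) : ℝ) * B ^ 2 / s ≤ B / (4 * gam) := by
    rw [div_le_div_iff₀ hs0 (by positivity)]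
    calc ((K0 + 1 : ℕ) : ℝ) * B ^ 2 * (4 * gam) ≤ 2 * K0 * B ^ 2 * (4 * gam) := by gcongr
      _ = B * (4 * K0 * B * (2 * gam)) := by ring
      _ ≤ B * s := by gcongr
  have hy2 : B / (16 * gam) ≤ ((K0 + 1 : ℕ) : ℝ) * B ^ 2 / s := by
    rw [div_le_div_iff₀ (by positivity) hs0, hKB]
    calc (B : ℝ) * s ≤ B * (16 * 2 ^ B * B * gam) := by gcongr
      _ = _ := by ring
  obtain ⟨ε1, hε1⟩ : ∃ ε1 : ℝ, ε1 = min (min (s ^ (K0 + 1)) (s ^ K0 * (B : ℝ) ^ 2 / 3))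
    (s ^ (K0 + 1) * (4 * gam * (B : ℝ) ^ 2 / s) ^ 2) := ⟨_, rfl⟩
  have hε1pos : 0 < ε1 := by
    rw [hε1]
    refine lt_min (lt_min ?_ ?_) ?_ <;> positivity
  have hε1a : ε1 ≤ s ^ (K0 + 1) := by rw [hε1]; exact (min_le_left _ _).trans (min_le_left _ _)
  have hε1b : ε1 ≤ s ^ K0 * (B : ℝ) ^ 2 / 3 := by rw [hε1]; exact (min_le_left _ _).trans (min_le_right _ _)
  have hε1c : ε1 ≤ s ^ (K0 + 1) * (4 * gam * (B : ℝ) ^ 2 / s) ^ 2 := by rw [hε1]; exact min_le_right _ _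
  obtain ⟨Aw, c₃, hc₃, hw1⟩ := hw (K0 + 1) (K0 + 5)
  obtain ⟨c₂, hc₂, hcov0⟩ := hcov (K0 + 1) (c₃ / 2) (by positivity)
  refine ⟨c₂, hc₂, fun z => ?_⟩
  obtain ⟨X2, hcov1⟩ := hcov0 z
  obtain ⟨Z, hZdef⟩ : ∃ Z : ℕ, Z = max 2 z := ⟨_, rfl⟩
  rw [← hZdef] at hcov1
  obtain ⟨X3, hbvX⟩ := hbv Aw (max Z 4)
  have hw2 := hw1 (max Z 4)
  obtain ⟨e0, he0⟩ : ∃ e0 : ℝ, e0 = c0 gam * s ^ (K0 + 1) / 40 := ⟨_, rfl⟩
  have he0pos : 0 < e0 := by rw [he0]; positivity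
  obtain ⟨C, hC⟩ : ∃ C : ℝ, C = ((K0 + 1 : ℕ) : ℝ) + L * (m * Fm ^ 2) + c0 gam * B + ((K0 + 1 : ℕ) : ℝ) :=
    ⟨_, rfl⟩
  have hCpos : 0 < C := by rw [hC]; positivity
  rw [← Filter.eventually_atTop]
  filter_upwards [S1_boundV h5 f c A hsm hcs hf0 hc hA1 hf1 ε1 hε1pos,
    S2_boundV h5 f c A hsm hcs hf0 hc hA1 hf1 ε1 hε1pos,
    pair_boundV h5 f c rho s A hsm hcs hf0 hc hA hf1 hf00 hrho hsr hs0 hDD ε1 hε1pos,
    LPhi_ge, errRG (K0 + 1) A.card e0 (Nat.cast_nonneg _) he0pos,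
    LL_tendsto.eventually_ge_atTop 1, eventually_ge_atTop 40, eventually_ge_atTop X2, eventually_ge_atTop X3,
    Et2_sub (K := K0 + 1), BE_Et2_ge (K0 + 1), ev_ff c₂ hc₂, hw2,
    ev_mainQ K0 (3 * C * (A.card : ℝ) ^ 2 / e0) (((K0 + 1 : ℕ) : ℝ) / c0 gam),
    Real.tendsto_log_atTop.eventually_ge_atTop (2 / c₃)]
    with X hS1 hS2 hPS hLP herr hL1 hX40 hX2 hX3 hEtsub hBEt hff hwX hmain hlc
  intro t htinj htup col hcol bad hbad
  obtain ⟨ps, S, hps, hS, hbvS⟩ := hbvX X hX3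
  have hpsZ : GoodP Z ps := by
    rcases hps with h | h
    · exact Or.inl h
    · exact Or.inr ⟨h.1, lt_of_le_of_lt (le_max_left _ _) h.2⟩
  obtain ⟨a0, hcop, hcard, ha0z⟩ := hcov1 X hX2 ps S hpsZ hS t htup
  have htT : ∀ j, (t j : ℝ) ≤ c₂ * ff X := fun j => (htup j).2.2
  have htl : ∀ j, (t j : ℝ) ≤ (Real.log X) ^ 2 := fun j => (htT j).trans hff.1
  have hWpos : 0 < WW X S ps := WW_pos X S ps
  have hWr : (0 : ℝ) < (WW X S ps : ℝ) := by exact_mod_cast hWpos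
  have hXpos : 0 < X := by linarith
  have hlX : 1 ≤ Real.log X := hmain.2.2
  have hffnn : 0 ≤ c₂ * ff X := mul_nonneg hc₂.le hff.2.1
  have htX : ∀ j, (t j : ℝ) ≤ X := by
    intro j
    have := htT j
    have := hff.2.2
    linarith
  -- the fibres
  have hfibF : ∀ d, (fib col d : ℝ) ≤ Fm := by
    intro d
    have h1 : (m : ℝ) * (fib col d : ℝ) ≤ 2 * ((K0 + 1 : ℕ) : ℝ) := by exact_mod_cast hcol d
    rw [hFm, le_div_iff₀ hmr0]
    linarith
  -- the survivors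
  set U0 := (range (⌊c₂ * ff X⌋₊ + 1)).filter (fun s => (∀ j, s ≠ t j) ∧ (a0 + s).Coprime (WW X S ps)) with hU0
  set U := insert 0 U0 with hU
  have hUcard : (U.card : ℝ) ≤ c₃ * Real.log X := by
    have h1 : (U.card : ℝ) ≤ U0.card + 1 := by
      rw [hU]
      exact_mod_cast Finset.card_insert_le 0 U0
    have h2 : 2 / c₃ * c₃ ≤ Real.log X * c₃ := mul_le_mul_of_nonneg_right hlc hc₃.le
    have h3 : 2 / c₃ * c₃ = 2 := by field_simp
    rw [h3] at h2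
    have h4 : c₃ / 2 * Real.log X = Real.log X * c₃ / 2 := by ring
    rw [h4] at hcard
    linarith
  have hUk : ∀ k ∈ U, (k : ℝ) ≤ (Real.log X) ^ 2 := by
    intro k hk
    rw [hU, Finset.mem_insert] at hk
    rcases hk with rfl | hk
    · push_cast; positivity
    · rw [hU0, Finset.mem_filter, Finset.mem_range] at hk
      have h1 : (k : ℝ) ≤ c₂ * ff X := (Nat.le_floor_iff hffnn).1 (by omega)
      exact h1.trans hff.1
  have hUt : ∀ j, t j ∉ U := by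
    intro j hj
    rw [hU, Finset.mem_insert] at hj
    rcases hj with hj | hj
    · exact (htup j).1.ne_zero hj
    · rw [hU0, Finset.mem_filter] at hj
      exact hj.2.1 j rfl
  have hUne : U.Nonempty := ⟨0, by rw [hU]; exact Finset.mem_insert_self _ _⟩
  obtain ⟨V, T, Z₁, M, M', M₂, e₁, e₂, e₃, hV, hTnn, hTU, hZ1, hM1, hMZ, hM', hM₂0, hM₂le, he, hcA, hcA2, hcB,
    ht1, ht2, ht3⟩ := hwX ps S hps hS hbvS t U htl hUk hUt hUne hUcard
  set E := Et X S ps t with hE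
  have hEE : EE X S ps ⊆ E := EE_sub_Et X S ps t
  have hEsup : E ⊆ Esup X ps := hEtsub ps S t htl
  have hres := Et_res (X := X) (S := S) (ps := ps) htinj
  have hMM : MPhi X / 400 ≤ LPhi X := by
    have := MPhi_le X (by linarith)
    linarith
  have hM0 : 0 ≤ M := by linarith
  have hM'0 : 0 ≤ M' := by linarith
  have hM₂s : ((K0 + 1 : ℕ) : ℝ) * M₂ ≤ c0 gam * Z₁ := by
    have h1 : ((K0 + 1 : ℕ) : ℝ) * M₂ ≤ ((K0 + 1 : ℕ) : ℝ) * (Z₁ / (Real.log X) ^ (K0 + 5)) :=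
      mul_le_mul_of_nonneg_left hM₂le hKpos.le
    refine h1.trans ?_
    have hlp : 0 < (Real.log X) ^ (K0 + 5) := by positivity
    rw [mul_div_assoc', div_le_iff₀ hlp]
    have h2 := hmain.2.1
    rw [div_le_iff₀ hη] at h2
    have h3 := mul_le_mul_of_nonneg_right h2 (show (0 : ℝ) ≤ Z₁ by linarith)
    linarith
  have htotnn : ∀ e : ℕ → ℝ, (∀ q, 0 ≤ e q) → 0 ≤ tot (K0 + 1) X (WW X S ps) ps e := by
    intro e he'
    unfold tot
    exact Finset.sum_nonneg fun q _ => mul_nonneg (by positivity) (he' q)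
  have herr1 := herr _ hWr (WW_le X (by linarith) S ps)
  have hpos := pos_atRL K0 B m f c A s hf0 hA1 hf1 hIpos hIle hs0 hB hJ ε1 X hε1pos hε1a hε1b hε1c
    col hm L Fm hL0 hFm hfibF hmlL hy1 hy2 ps a0 S t hX40 hL1 hMM
    E hEsup (hBEt (max Z 4) ps S t (le_max_right _ _) hps hS htl) V T Z₁ M M' M₂ _ _ _ hV hZ1 hM1 hMZ hM' hM₂0
    hM₂s (htotnn e₁ fun q => (he q).1) (htotnn e₂ fun q => (he q).2.1) (htotnn e₃ fun q => (he q).2.2)
    (hS1 (max Z 4) ps S a0 t hps hS E hEE hEsup hres V M e₁ hM0 (fun q => (he q).1) hcA)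
    (fun i => hS2 (max Z 4) ps S a0 t hps hS E hEE hEsup hres htl hcop V M' (X ^ (1 / 100 : ℝ)) e₃ hM'0
      (by positivity) (fun a => by rw [abs_of_nonneg (hV a).1]; exact (hV a).2) (fun q => (he q).2.2) i (hcB i))
    (fun i j hij => hPS i j hij (max Z 4) ps S a0 t hps hS E hEE hEsup hres htX V M e₁ (fun a => (hV a).1) hM0
      (fun q => (he q).1) hcA)
    (hS1 (max Z 4) ps S a0 t hps hS E hEE hEsup hres (fun a => V a * T a) M₂ e₂ hM₂0 (fun q => (he q).2.1) hcA2)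
    (by
      rw [← hC, ← he0]
      exact tot_errQ K0 C _ e0 X (WW X S ps) Z₁ _ _ _ hCpos.le (sq_nonneg _) he0pos hXpos hWr hZ1 hlX hmain.1
        ht1 ht2 ht3)
    (by
      rw [← he0]
      exact herr1) bad hbad
  obtain ⟨n, hn, hnpos⟩ : ∃ n ∈ Icc 1 ⌊3 * X⌋₊, 0 < (nu X (WW X S ps) a0 n *
      sqw E X f A (fun j => (n : ℤ) + t j) ^ 2 * V n) *
      (QL L col (fun i => thn X (n + t i)) - c0 gam * B - ((K0 + 1 : ℕ) : ℝ) * T n -
      ((K0 + 1 : ℕ) : ℝ) * (if n ∈ bad then 1 else 0)) := by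
    by_contra hcon
    push Not at hcon
    exact absurd hpos (not_lt.2 (Finset.sum_nonpos hcon))
  have hWnn : 0 ≤ nu X (WW X S ps) a0 n * sqw E X f A (fun j => (n : ℤ) + t j) ^ 2 * V n :=
    mul_nonneg (mul_nonneg (nu_nonneg _ _ _ _) (sq_nonneg _)) (hV n).1
  have hWpos' : 0 < nu X (WW X S ps) a0 n * sqw E X f A (fun j => (n : ℤ) + t j) ^ 2 * V n := by
    rcases hWnn.eq_or_lt with h | h
    · rw [← h, zero_mul] at hnpos; exact absurd hnpos (lt_irrefl _)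
    · exact h
  have hBrpos := (mul_pos_iff_of_pos_left hWpos').1 hnpos
  have hnu : nu X (WW X S ps) a0 n ≠ 0 := by
    intro h
    rw [h, zero_mul, zero_mul] at hWpos'
    exact lt_irrefl _ hWpos'
  have hXn : X < n := by
    by_contra hle
    push Not at hle
    apply hnu
    unfold nu
    rw [Phi_eq_zero_of_le (by positivity) (by rw [div_le_one hXpos]; exact hle), ite_self]
  have hcl : n ≡ a0 [MOD WW X S ps] := by
    by_contra h
    apply hnu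
    unfold nu
    rw [if_neg h]
  have hn3 : (n : ℝ) ≤ 3 * X := by
    rw [Finset.mem_Icc] at hn
    exact (Nat.cast_le.2 hn.2).trans (Nat.floor_le (by linarith))
  have hyX : (yy X : ℝ) < X := by
    have h1 : (yy X : ℝ) ≤ Real.log X / 1000 := Nat.floor_le (by positivity)
    have h2 := Real.log_le_sub_one_of_pos hXpos
    linarith
  have hTn := hTnn n
  have hKT : 0 ≤ ((K0 + 1 : ℕ) : ℝ) * T n := by positivity
  have hKb : (0 : ℝ) ≤ ((K0 + 1 : ℕ) : ℝ) * (if n ∈ bad then 1 else 0) := by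
    split_ifs
    · rw [mul_one]; exact hKpos.le
    · rw [mul_zero]
  have hem : 0 < c0 gam * B := by positivity
  have h0 : ∀ i, 0 ≤ thn X (n + t i) := fun i => thn_nonneg X (by linarith) _
  have h4X : ∀ i, ((n + t i : ℕ) : ℝ) ≤ 4 * X := by
    intro i
    push_cast
    have := htX i
    linarith
  have hQsum := QL_le_sum L hL0 col (fun i => thn X (n + t i)) h0
  have hfin := finishRG K0 0 (c₂ * ff X) X ps a0 S t htT hX40 (by linarith [hff.2.2]) hyX U (by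
    intro s hs hst hsc
    rw [hU, Finset.mem_insert]
    right
    rw [hU0, Finset.mem_filter, Finset.mem_range, Nat.lt_succ_iff]
    exact ⟨Nat.le_floor hs, hst, hsc⟩) T hTnn hTU bad n hXn hn3 hcl (by
    have h1 : (∑ i, th (n + t i)) / Real.log (4 * X) = ∑ i, thn X (n + t i) := by
      rw [Finset.sum_div]
      rfl
    rw [h1]
    push_cast at hBrpos ⊢
    linarith)
  have hlogX : 0 < Real.log X := by linarith
  have hl4 : Real.log (4 * X) ≤ 2 * Real.log X := by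
    have h1 : Real.log ((4 : ℝ) * X) ≤ Real.log (X * X) :=
      Real.log_le_log (by linarith) (mul_le_mul_of_nonneg_right (by linarith) hXpos.le)
    rw [Real.log_mul hXpos.ne' hXpos.ne'] at h1
    linarith
  refine ⟨n, hXn, hn3, hfin.1, ?_, hfin.2.2, ?_⟩
  · have h1 := QL_le lam (by linarith) col (fun i => thn X (n + t i)) (fun j => (n + t j).Prime)
      (by
        intro i hi
        have hni : X ≤ ((n + t i : ℕ) : ℝ) := by
          push_cast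
          have : (0 : ℝ) ≤ t i := Nat.cast_nonneg _
          linarith
        unfold thn th
        rw [if_pos hi, div_le_div_iff₀ (by norm_num) (Real.log_pos (by linarith))]
        have h2 : Real.log X ≤ Real.log ((n + t i : ℕ) : ℝ) := Real.log_le_log hXpos hni
        linarith)
      (fun i _ => thn_le_one X (by linarith) _ (h4X i))
      (fun i hi => thn_eq_zero X _ hi)
    rw [← hL] at h1
    linarith
  · intro p hpp hpz
    obtain ⟨h1, h2⟩ := ha0z p hpp hpz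
    exact (Nat.modEq_zero_iff_dvd).1 ((hcl.of_dvd h2).trans ((Nat.modEq_zero_iff_dvd).2 h1))

end Pool.Agent.J6H13.RL
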