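import Pool.Agent.H312R2.RG.C3a
import Pool.Agent.H362R2.RQ.Place
import Pool.Agent.J6H13.RL.Main

set_option autoImplicit false

/-! Primes at prescribed positions of a record window, with few repetitions in the classes. -/

open Finset Filter

namespace Pool.Agent.J6H13.RL

open Pool.Agent.H378R2 (yy)
open Pool.Agent.H256R2.SC (ff)
open Pool.Agent.H362R2.RQ (exists_prime_mod dvd_of_primes fib)
open Pool.Agent.TH779.Ord (fn)

/-- the class of an index -/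
def cdiv (B b : ℕ) (hb : b ≤ B) (j : Fin (2 ^ B)) : Fin (2 ^ b) :=
  ⟨j / 2 ^ (B - b), by
    rw [Nat.div_lt_iff_lt_mul (by positivity), ← pow_add, Nat.add_sub_cancel' hb]
    exact j.2⟩

theorem fib_cdiv (B b : ℕ) (hb : b ≤ B) (d : Fin (2 ^ b)) : 2 ^ b * fib (cdiv B b hb) d ≤ 2 * 2 ^ B := by
  classical
  have h1 : fib (cdiv B b hb) d ≤ 2 ^ (B - b) := by
    unfold fib
    have h2 : (univ.filter (fun j : Fin (2 ^ B) => cdiv B b hb j = d)).card ≤
        (Finset.Ico ((d : ℕ) * 2 ^ (B - b)) ((d : ℕ) * 2 ^ (B - b) + 2 ^ (B - b))).card := by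
      apply Finset.card_le_card_of_injOn (fun j : Fin (2 ^ B) => (j : ℕ))
      · intro j hj
        rw [mem_coe, mem_filter] at hj
        have h3 : (j : ℕ) / 2 ^ (B - b) = d := congrArg Fin.val hj.2
        have h4 := Nat.div_add_mod' (j : ℕ) (2 ^ (B - b))
        have h5 := Nat.mod_lt (j : ℕ) (show 0 < 2 ^ (B - b) by positivity)
        rw [h3] at h4
        rw [mem_coe, mem_Ico]
        constructor
        · linarith [Nat.zero_le ((j : ℕ) % 2 ^ (B - b))]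
        · linarith
      · intro j _ j' _ h
        exact Fin.ext h
    rwa [Nat.card_Ico, Nat.add_sub_cancel_left] at h2
  calc 2 ^ b * fib (cdiv B b hb) d ≤ 2 ^ b * 2 ^ (B - b) := Nat.mul_le_mul_left _ h1
    _ = 2 ^ B := by rw [← pow_add, Nat.add_sub_cancel' hb]
    _ ≤ 2 * 2 ^ B := by omega

/-- windows with prescribed positions `y x`, `x < 2 ^ B`, in units of the length `F` of the window -/
theorem place_of (h : StRL) : ∃ C₁ c₀ : ℝ, 0 < C₁ ∧ 0 < c₀ ∧ ∀ (B b : ℕ) (lam : ℝ), 1 ≤ B → b ≤ B → 1 ≤ lam →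
    C₁ * lam * B ≤ 2 ^ b → ∃ c : ℝ, 0 < c ∧ ∀ (y : ℕ → ℝ) (ε : ℝ), 0 < ε → ε ≤ 1 / 8 →
    (∀ x < 2 ^ B, 1 / 4 ≤ y x ∧ y x ≤ 3 / 4) →
    (∀ x < 2 ^ B, ∀ x' < 2 ^ B, x < x' → y x + ε ≤ y x') →
    ∀ q a : ℕ, Squarefree q → a.Coprime q →
    ∃ X0 : ℝ, ∀ X : ℝ, X0 ≤ X → ∀ F : ℝ, Real.log X ≤ F → F ≤ c * ff X →
    ∀ bad : Finset ℕ, (bad.card : ℝ) ≤ X ^ (9 / 10 : ℝ) →
    ∃ n : ℕ, X < n ∧ (n : ℝ) ≤ 3 * X ∧ n ∉ bad ∧ ∃ (t : ℕ → ℕ) (J : Finset ℕ),
      (∀ x < 2 ^ B, y x * F < t x ∧ (t x : ℝ) ≤ (y x + ε) * F) ∧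
      (∀ x ∈ J, x < 2 ^ B ∧ (n + t x).Prime ∧ n + t x ≡ a [MOD q]) ∧
      (∀ s : ℕ, (s : ℝ) ≤ F → (n + s).Prime → ∃ x ∈ J, s = t x) ∧
      c₀ * B ≤ ∑ g ∈ range (2 ^ b), fn lam (J.filter (fun x => x / 2 ^ (B - b) = g)).card := by
  classical
  obtain ⟨C₁, c₀, hC₁, hc₀, hmain⟩ := h
  refine ⟨C₁, c₀, hC₁, hc₀, ?_⟩
  intro B b lam hB hb hlam hCB
  obtain ⟨c, hc, hX1'⟩ := hmain B (2 ^ b) lam hB Nat.one_le_two_pow hlam (by push_cast; exact hCB)
  refine ⟨c, hc, ?_⟩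
  intro y ε hε hε8 hy hsep q a hqsf haq
  have hq0 : 0 < q := Nat.pos_of_ne_zero hqsf.ne_zero
  obtain ⟨X1, hX1⟩ := hX1' q
  obtain ⟨Y0, hY0⟩ := Filter.eventually_atTop.1 (exists_prime_mod q hq0 a haq ε hε)
  have hev : ∀ᶠ X : ℝ in atTop, ∀ F : ℝ, Real.log X ≤ F → F ≤ c * ff X →
      ∀ bad : Finset ℕ, (bad.card : ℝ) ≤ X ^ (9 / 10 : ℝ) →
      ∃ n : ℕ, X < n ∧ (n : ℝ) ≤ 3 * X ∧ n ∉ bad ∧ ∃ (t : ℕ → ℕ) (J : Finset ℕ),
      (∀ x < 2 ^ B, y x * F < t x ∧ (t x : ℝ) ≤ (y x + ε) * F) ∧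
      (∀ x ∈ J, x < 2 ^ B ∧ (n + t x).Prime ∧ n + t x ≡ a [MOD q]) ∧
      (∀ s : ℕ, (s : ℝ) ≤ F → (n + s).Prime → ∃ x ∈ J, s = t x) ∧
      c₀ * B ≤ ∑ g ∈ range (2 ^ b), fn lam (J.filter (fun x => x / 2 ^ (B - b) = g)).card := by
    filter_upwards [eventually_ge_atTop X1, Real.tendsto_log_atTop.eventually_ge_atTop (4 * |Y0| + 4)]
      with X hXX1 hlX
    intro F hlF hFc bad hbad
    have hF : 4 * |Y0| + 4 ≤ F := hlX.trans hlF
    have hY0n := abs_nonneg Y0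
    have hFpos : 0 < F := by linarith
    have hex : ∀ x, ∃ p : ℕ, x < 2 ^ B → p.Prime ∧ p ≡ a [MOD q] ∧ y x * F < p ∧ (p : ℝ) ≤ (y x + ε) * F := by
      intro x
      by_cases hx : x < 2 ^ B
      · have h1 := hy x hx
        have h2 : 1 / 4 * F ≤ y x * F := mul_le_mul_of_nonneg_right h1.1 hFpos.le
        have h3 : y x * F ≤ 1 * F := mul_le_mul_of_nonneg_right (by linarith [h1.2]) hFpos.le
        obtain ⟨p, hp, hpa, hp1, hp2⟩ := hY0 (y x * F) (by
          have := le_abs_self Y0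
          linarith)
        refine ⟨p, fun _ => ⟨hp, hpa, hp1, hp2.trans ?_⟩⟩
        have h4 : ε * (y x * F) ≤ ε * (1 * F) := mul_le_mul_of_nonneg_left h3 hε.le
        have e1 : (1 + ε) * (y x * F) = y x * F + ε * (y x * F) := by ring
        have e2 : (y x + ε) * F = y x * F + ε * (1 * F) := by ring
        linarith
      · exact ⟨0, fun h => absurd h hx⟩
    choose t ht using hex
    have htlt : ∀ x < 2 ^ B, ∀ x' < 2 ^ B, x < x' → t x < t x' := by
      intro x hx x' hx' hxx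
      have h1 := (ht x hx).2.2.2
      have h2 := (ht x' hx').2.2.1
      have h3 : (y x + ε) * F ≤ y x' * F := mul_le_mul_of_nonneg_right (hsep x hx x' hx' hxx) hFpos.le
      have h4 : (t x : ℝ) < t x' := by linarith
      exact_mod_cast h4
    have htinj : Function.Injective (fun j : Fin (2 ^ B) => t j) := by
      intro j j' hjj
      rcases lt_trichotomy (j : ℕ) j' with h | h | h
      · exact absurd hjj (htlt _ j.2 _ j'.2 h).ne
      · exact Fin.ext h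
      · exact absurd hjj (htlt _ j'.2 _ j.2 h).ne'
    have htF : ∀ x < 2 ^ B, (t x : ℝ) ≤ F := by
      intro x hx
      have h1 := (ht x hx).2.2.2
      have h2 : (y x + ε) * F ≤ 1 * F := mul_le_mul_of_nonneg_right (by linarith [(hy x hx).2]) hFpos.le
      linarith
    have htyy : ∀ x < 2 ^ B, yy X < t x := by
      intro x hx
      have h0 : 0 ≤ Real.log X := by linarith
      have h1 : (yy X : ℝ) ≤ Real.log X / 1000 := Nat.floor_le (by positivity)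
      have h4 : 1 / 4 * F ≤ y x * F := mul_le_mul_of_nonneg_right (hy x hx).1 hFpos.le
      have h5 := (ht x hx).2.2.1
      have h6 : (yy X : ℝ) < t x := by linarith
      exact_mod_cast h6
    obtain ⟨n, hn1, hn2, hn3, hn4, hn5, hn6⟩ := hX1 X hXX1 (fun j => t j) htinj
      (fun j => ⟨(ht j j.2).1, htyy j j.2, (htF j j.2).trans hFc⟩) (cdiv B b hb) (fib_cdiv B b hb) bad hbad
    have hqn : q ∣ n := dvd_of_primes q n hqsf fun p hp hpq => hn6 p hp (Nat.le_of_dvd hq0 hpq)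
    refine ⟨n, hn1, hn2, hn3, t, (range (2 ^ B)).filter (fun x => (n + t x).Prime),
      fun x hx => ⟨(ht x hx).2.2.1, (ht x hx).2.2.2⟩, ?_, ?_, ?_⟩
    · intro x hx
      rw [mem_filter, mem_range] at hx
      refine ⟨hx.1, hx.2, ?_⟩
      have h1 : n ≡ 0 [MOD q] := (Nat.modEq_zero_iff_dvd).2 hqn
      have h2 := h1.add (ht x hx.1).2.1
      rwa [zero_add] at h2
    · intro s hs hp
      obtain ⟨j, hj⟩ := hn5 s (hs.trans hFc) hp
      refine ⟨j, ?_, hj⟩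
      rw [mem_filter, mem_range]
      refine ⟨j.2, ?_⟩
      rw [← hj]
      exact hp
    · refine hn4.trans (le_of_eq ?_)
      rw [← Fin.sum_univ_eq_sum_range (fun g => fn lam
        (((range (2 ^ B)).filter (fun x => (n + t x).Prime)).filter (fun x => x / 2 ^ (B - b) = g)).card) (2 ^ b)]
      apply sum_congr rfl
      intro g _
      congr 1
      apply card_bij (fun (j : Fin (2 ^ B)) _ => (j : ℕ))
      · intro j hj
        rw [mem_filter] at hj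
        rw [mem_filter, mem_filter, mem_range]
        exact ⟨⟨j.2, hj.2.2⟩, congrArg Fin.val hj.2.1⟩
      · intro j _ j' _ h
        exact Fin.ext h
      · intro x hx
        rw [mem_filter, mem_filter, mem_range] at hx
        refine ⟨⟨x, hx.1.1⟩, ?_, rfl⟩
        rw [mem_filter]
        exact ⟨mem_univ _, Fin.ext hx.2, hx.1.2⟩
  exact Filter.eventually_atTop.1 hev

end Pool.Agent.J6H13.RL
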