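import Pool.Agent.H362R2.RQ.Fin
import Pool.Agent.J6H13.RL.Place

set_option autoImplicit false

/-! The unconditional theorem. -/

namespace Pool.Agent.J6H13.RL

/-- the coloured Maynard-Tao theorem inside the record windows, with a penalty for several primes of the same
colour -/
theorem stRL : StRL :=
  rl_of Pool.Agent.H378R2.sieveAsymp_holds Pool.Agent.H378R2.bvrel_holds Pool.Agent.H362R2.RQ.covR0
    Pool.Agent.H312R2.RG.weights

end Pool.Agent.J6H13.RL
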