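import Mathlib
import Pool.Agent.J6H13.RL.Place
import Pool.Agent.TH779.Ord.Block
import Pool.Agent.TH779.Ord.Count

/-! Orders of consecutive prime gaps at every scale up to the record. -/

set_option autoImplicit false

namespace Pool.Agent.J6H13.RL

open Finset Filter
open Pool.Agent.TH779.Ord (fn el el_mem el_lt el_surj gp hh hh_strictMono block patterns_many)
open Pool.Agent.H256R2.SC (ff)

/-- a block of hits is a block of consecutive primes -/
theorem nth_block (n k : ℕ) (r : ℕ → ℕ) (hr : ∀ i j, i < j → j ≤ k → r i < r j)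
    (hp : ∀ i ≤ k, (n + r i).Prime)
    (hno : ∀ y, r 0 ≤ y → y ≤ r k → (n + y).Prime → ∃ i ≤ k, y = r i) :
    ∃ m : ℕ, ∀ i ≤ k, Nat.nth Nat.Prime (m + i) = n + r i := by
  have hinf : (Set.ofPred Nat.Prime).Infinite := Nat.infinite_setOfPred_prime
  have hle : ∀ i j, i ≤ j → j ≤ k → r i ≤ r j := by
    intro i j hij hj
    rcases Nat.lt_or_eq_of_le hij with h | h
    · exact (hr i j h hj).le
    · rw [h]
  refine ⟨Nat.count Nat.Prime (n + r 0), fun i => ?_⟩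
  induction i with
  | zero =>
    intro _
    rw [add_zero]
    exact Nat.nth_count (hp 0 (Nat.zero_le _))
  | succ i ih =>
    intro hi
    have h1 := ih (by omega)
    set m := Nat.count Nat.Prime (n + r 0) with hm
    have h2 : Nat.nth Nat.Prime (m + i) < Nat.nth Nat.Prime (m + (i + 1)) :=
      Nat.nth_strictMono hinf (by omega)
    have h3 : Nat.nth Nat.Prime (Nat.count Nat.Prime (n + r (i + 1))) = n + r (i + 1) :=
      Nat.nth_count (hp (i + 1) hi)
    have h4 : m + i < Nat.count Nat.Prime (n + r (i + 1)) := by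
      have := hr i (i + 1) (by omega) hi
      rw [← (Nat.nth_strictMono hinf).lt_iff_lt, h3, h1]
      omega
    have h5 : Nat.nth Nat.Prime (m + (i + 1)) ≤ n + r (i + 1) := by
      rw [← h3]
      exact (Nat.nth_strictMono hinf).monotone (by omega)
    have h6 : (Nat.nth Nat.Prime (m + (i + 1))).Prime := Nat.prime_nth_prime _
    rw [h1] at h2
    obtain ⟨y, hy⟩ : ∃ y, Nat.nth Nat.Prime (m + (i + 1)) = n + y :=
      ⟨Nat.nth Nat.Prime (m + (i + 1)) - n, by omega⟩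
    rw [hy] at h2 h5 h6 ⊢
    have h7 : r 0 ≤ r i := hle 0 i (Nat.zero_le _) (by omega)
    have h8 : r (i + 1) ≤ r k := hle (i + 1) k hi le_rfl
    obtain ⟨j, hj, hyj⟩ := hno y (by omega) (by omega) h6
    rcases lt_trichotomy j (i + 1) with h | h | h
    · have := hle j i (by omega) (by omega)
      omega
    · rw [hyj, h]
    · have := hr (i + 1) j h hj
      omega

/-- the gap `p_(n+1) - p_n` -/
noncomputable def gap (n : ℕ) : ℕ := Nat.nth Nat.Prime (n + 1) - Nat.nth Nat.Prime n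

/-- the `n` with `X < p_n < ... < p_(n+k) ≤ 4 X`, all `≡ a` modulo `q`, whose gaps are between `δ H` and `H` and
ordered like `π` -/
def Occ (k q a : ℕ) (δ X H : ℝ) (π : Equiv.Perm (Fin k)) : Set ℕ :=
  {n | X < Nat.nth Nat.Prime n ∧ (Nat.nth Nat.Prime (n + k) : ℝ) ≤ 4 * X ∧
    (∀ i ≤ k, Nat.nth Nat.Prime (n + i) ≡ a [MOD q]) ∧
    (∀ i < k, δ * H ≤ gap (n + i) ∧ (gap (n + i) : ℝ) ≤ H) ∧
    ∀ i j : Fin k, π i < π j ↔ gap (n + i) < gap (n + j)}

theorem occ_finite (k q a : ℕ) (δ X H : ℝ) (π : Equiv.Perm (Fin k)) : (Occ k q a δ X H π).Finite := by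
  apply Set.Finite.subset (Set.finite_le_nat ⌊4 * X⌋₊)
  rintro n ⟨-, h2, -⟩
  have hinf : (Set.ofPred Nat.Prime).Infinite := Nat.infinite_setOfPred_prime
  have h1 : n ≤ Nat.nth Nat.Prime (n + k) :=
    (Nat.le_add_right n k).trans ((Nat.nth_strictMono hinf).id_le _)
  have h3 : (n : ℝ) ≤ 4 * X := le_trans (by exact_mod_cast h1) h2
  exact Nat.le_floor h3

/-- growth -/
theorem ev_growth (A c : ℝ) : ∀ᶠ X : ℝ in atTop, c * ff X ≤ X ∧
    A * X ^ (7 / 8 : ℝ) * (c * ff X + 1) ≤ X ^ (9 / 10 : ℝ) ∧ 0 < Real.log X := by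
  have h0 := Pool.Agent.H312R2.RG.C3.ff_small (|c| + 1) (by positivity)
  have h1 : (fun x : ℝ => Real.log x ^ (4 : ℝ)) =o[atTop] (fun x : ℝ => x ^ (1 / 40 : ℝ)) :=
    isLittleO_log_rpow_rpow_atTop 4 (by norm_num)
  have h2 := h1.def (c := 1 / ((|A| + 1) * (|c| + 1))) (by positivity)
  filter_upwards [h0, h2, Pool.Agent.H312R2.RG.C3.ff_upper, Pool.Agent.H312R2.RG.C3.ff_tendsto.eventually_ge_atTop 0,
    Real.tendsto_log_atTop.eventually_ge_atTop 1, eventually_gt_atTop (0 : ℝ)] with X a0 a2 a3 a4 a5 a6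
  refine ⟨?_, ?_, by linarith⟩
  · have h3 : c * ff X ≤ (|c| + 1) * ff X := mul_le_mul_of_nonneg_right (by linarith [le_abs_self c]) a4
    linarith
  · rw [Real.norm_eq_abs, Real.norm_eq_abs, abs_of_pos (Real.rpow_pos_of_pos a6 _),
      abs_of_nonneg (Real.rpow_nonneg (by linarith) _), show (4 : ℝ) = ((4 : ℕ) : ℝ) by norm_num,
      Real.rpow_natCast] at a2
    have h4 : (|A| + 1) * (|c| + 1) * Real.log X ^ 4 ≤ X ^ (1 / 40 : ℝ) := by
      calc (|A| + 1) * (|c| + 1) * Real.log X ^ 4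
          ≤ (|A| + 1) * (|c| + 1) * (1 / ((|A| + 1) * (|c| + 1)) * X ^ (1 / 40 : ℝ)) :=
            mul_le_mul_of_nonneg_left a2 (by positivity)
        _ = X ^ (1 / 40 : ℝ) := by field_simp
    have h5 : (1 : ℝ) ≤ Real.log X ^ 4 := one_le_pow₀ a5
    have h6 : c * ff X + 1 ≤ (|c| + 1) * Real.log X ^ 4 := by
      have h7 : c * ff X ≤ |c| * Real.log X ^ 4 :=
        (mul_le_mul_of_nonneg_right (le_abs_self c) a4).trans (mul_le_mul_of_nonneg_left a3 (abs_nonneg c))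
      linarith
    have h8 : 0 < X ^ (7 / 8 : ℝ) := Real.rpow_pos_of_pos a6 _
    have h10 : |c * ff X + 1| ≤ (|c| + 1) * Real.log X ^ 4 := by
      rw [abs_le]
      refine ⟨?_, h6⟩
      have h11 : -(|c| * Real.log X ^ 4) ≤ c * ff X := by
        have h12 : |c| * ff X ≤ |c| * Real.log X ^ 4 := mul_le_mul_of_nonneg_left a3 (abs_nonneg c)
        have h13 : -(|c| * ff X) ≤ c * ff X := by
          have := mul_le_mul_of_nonneg_right (neg_abs_le c) a4
          linarith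
        linarith
      linarith
    have h14 : A * (c * ff X + 1) ≤ (|A| + 1) * ((|c| + 1) * Real.log X ^ 4) := by
      calc A * (c * ff X + 1) ≤ |A * (c * ff X + 1)| := le_abs_self _
        _ = |A| * |c * ff X + 1| := abs_mul _ _
        _ ≤ (|A| + 1) * ((|c| + 1) * Real.log X ^ 4) := by
          apply mul_le_mul _ h10 (abs_nonneg _) (by positivity)
          linarith
    calc A * X ^ (7 / 8 : ℝ) * (c * ff X + 1) = X ^ (7 / 8 : ℝ) * (A * (c * ff X + 1)) := by ring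
      _ ≤ X ^ (7 / 8 : ℝ) * ((|A| + 1) * ((|c| + 1) * Real.log X ^ 4)) := mul_le_mul_of_nonneg_left h14 h8.le
      _ ≤ X ^ (7 / 8 : ℝ) * X ^ (1 / 40 : ℝ) := by
        apply mul_le_mul_of_nonneg_left _ h8.le
        linarith
      _ = X ^ (9 / 10 : ℝ) := by
        rw [← Real.rpow_add a6]
        norm_num

open Classical in
theorem orders_of (h : StRL) : ∃ C₁ c₀ : ℝ, 0 < C₁ ∧ 0 < c₀ ∧ ∀ (k c N B b : ℕ) (lam : ℝ), 1 ≤ k → 1 ≤ B →
    b ≤ B → 1 ≤ lam → N + 1 = 2 ^ b → C₁ * lam * B ≤ 2 ^ b → (k : ℝ) + 1 ≤ c₀ * B →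
    (c : ℝ) ≤ k - 2 * k / lam → ∃ δ : ℝ, 0 < δ ∧ ∀ q a : ℕ, Squarefree q → a.Coprime q →
    ∃ X₀ : ℝ, ∀ X : ℝ, X₀ ≤ X → ∀ H : ℝ, Real.log X ≤ H → H ≤ δ * ff X →
      c.factorial ≤ ((univ : Finset (Equiv.Perm (Fin k))).filter
        (fun π => X ^ (7 / 8 : ℝ) ≤ ((Occ k q a δ X H π).ncard : ℝ))).card * 2 ^ (k + N) := by
  obtain ⟨C₁, c₀, hC₁, hc₀, hmain⟩ := place_of h
  refine ⟨C₁, c₀, hC₁, hc₀, ?_⟩
  intro k c N B b lam hk hB hb hlam hN hCB hkB hc
  obtain ⟨c₁, hc₁, hpl⟩ := hmain B b lam hB hb hlam hCB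
  set K := 2 ^ (B - b) with hK
  have hK1 : 1 ≤ K := Nat.one_le_two_pow
  have hMK : 2 ^ b * K = 2 ^ B := by rw [hK, ← pow_add, Nat.add_sub_cancel' hb]
  set Bp := 2 ^ (2 ^ B) + N + 4 with hBp
  -- the positions
  set s : Equiv.Perm (Fin N) → ℕ → ℕ := fun σ l => if h : l < N then (σ ⟨l, h⟩ : ℕ) else 0 with hs
  have hs' : ∀ σ (l : ℕ) (h : l < N), s σ l = (σ ⟨l, h⟩ : ℕ) := by
    intro σ l h
    simp only [hs, h, dite_true]
  obtain ⟨Hm, hHm⟩ : ∃ Hm : ℕ, Hm = 1 + ∑ σ : Equiv.Perm (Fin N), hh (s σ) Bp K (2 ^ B) := ⟨_, rfl⟩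
  have hHm1 : 1 ≤ Hm := by rw [hHm]; exact Nat.le_add_right _ _
  have hHmR : (1 : ℝ) ≤ Hm := by exact_mod_cast hHm1
  have hHm0 : (0 : ℝ) < Hm := by linarith
  have hhle : ∀ σ, ∀ x < 2 ^ B, hh (s σ) Bp K x ≤ Hm := by
    intro σ x hx
    have h1 : hh (s σ) Bp K x ≤ hh (s σ) Bp K (2 ^ B) := (hh_strictMono _ _ _).monotone hx.le
    have h2 : hh (s σ) Bp K (2 ^ B) ≤ ∑ σ : Equiv.Perm (Fin N), hh (s σ) Bp K (2 ^ B) :=
      single_le_sum (f := fun σ => hh (s σ) Bp K (2 ^ B)) (fun _ _ => Nat.zero_le _) (mem_univ σ)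
    omega
  set y : Equiv.Perm (Fin N) → ℕ → ℝ := fun σ x => 1 / 4 + (hh (s σ) Bp K x : ℝ) / (2 * Hm) with hy
  obtain ⟨ε, hε⟩ : ∃ ε : ℝ, ε = 1 / (8 * Hm) := ⟨_, rfl⟩
  have hε0 : 0 < ε := by rw [hε]; positivity
  have hε8 : ε ≤ 1 / 8 := by
    rw [hε]
    apply one_div_le_one_div_of_le (by norm_num)
    linarith
  have hεH : ε * (8 * Hm) = 1 := by rw [hε]; field_simp
  have hy1 : ∀ σ, ∀ x < 2 ^ B, 1 / 4 ≤ y σ x ∧ y σ x ≤ 3 / 4 := by
    intro σ x hx
    have h1 : (hh (s σ) Bp K x : ℝ) ≤ Hm := by exact_mod_cast hhle σ x hx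
    have h2 : (hh (s σ) Bp K x : ℝ) / (2 * Hm) ≤ 1 / 2 := by
      rw [div_le_div_iff₀ (by positivity) (by norm_num)]
      linarith
    have h3 : 0 ≤ (hh (s σ) Bp K x : ℝ) / (2 * Hm) := by positivity
    simp only [hy]
    constructor <;> linarith
  have hydiff : ∀ σ, ∀ x x' : ℕ, x < x' → y σ x' - y σ x =
      4 * ε * ((hh (s σ) Bp K x' - hh (s σ) Bp K x : ℕ) : ℝ) := by
    intro σ x x' hxx
    have h1 := (hh_strictMono (s σ) Bp K hxx).le
    rw [Nat.cast_sub h1]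
    simp only [hy]
    rw [hε]
    field_simp
    ring
  have hdiff1 : ∀ σ, ∀ x x' : ℕ, x < x' → (1 : ℝ) ≤ ((hh (s σ) Bp K x' - hh (s σ) Bp K x : ℕ) : ℝ) := by
    intro σ x x' hxx
    have h1 := hh_strictMono (s σ) Bp K hxx
    exact_mod_cast (by omega : 1 ≤ hh (s σ) Bp K x' - hh (s σ) Bp K x)
  have hy2 : ∀ σ, ∀ x < 2 ^ B, ∀ x' < 2 ^ B, x < x' → y σ x + ε ≤ y σ x' := by
    intro σ x _ x' _ hxx
    have h1 := hydiff σ x x' hxx
    have h2 := hdiff1 σ x x' hxx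
    nlinarith
  obtain ⟨δ, hδ⟩ : ∃ δ : ℝ, δ = min c₁ ε := ⟨_, rfl⟩
  have hδ0 : 0 < δ := by rw [hδ]; exact lt_min hc₁ hε0
  have hδc : δ ≤ c₁ := by rw [hδ]; exact min_le_left _ _
  have hδε : δ ≤ ε := by rw [hδ]; exact min_le_right _ _
  refine ⟨δ, hδ0, ?_⟩
  intro q a hqsf haq
  have hex : ∀ σ, ∃ X0 : ℝ, ∀ X : ℝ, X0 ≤ X → ∀ F : ℝ, Real.log X ≤ F → F ≤ c₁ * ff X →
    ∀ bad : Finset ℕ, (bad.card : ℝ) ≤ X ^ (9 / 10 : ℝ) →
    ∃ n : ℕ, X < n ∧ (n : ℝ) ≤ 3 * X ∧ n ∉ bad ∧ ∃ (t : ℕ → ℕ) (J : Finset ℕ),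
      (∀ x < 2 ^ B, y σ x * F < t x ∧ (t x : ℝ) ≤ (y σ x + ε) * F) ∧
      (∀ x ∈ J, x < 2 ^ B ∧ (n + t x).Prime ∧ n + t x ≡ a [MOD q]) ∧
      (∀ s : ℕ, (s : ℝ) ≤ F → (n + s).Prime → ∃ x ∈ J, s = t x) ∧
      c₀ * B ≤ ∑ g ∈ range (2 ^ b), fn lam (J.filter (fun x => x / 2 ^ (B - b) = g)).card :=
    fun σ => hpl (y σ) ε hε0 hε8 (hy1 σ) (hy2 σ) q a hqsf haq
  choose X1 hX1 using hex
  rw [← Filter.eventually_atTop]
  have hall : ∀ᶠ X : ℝ in atTop, ∀ σ, X1 σ ≤ X := Filter.eventually_all.2 fun σ => eventually_ge_atTop _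
  filter_upwards [hall, ev_growth (k.factorial : ℝ) c₁, eventually_gt_atTop (0 : ℝ)] with X hXσ hgr hX0
  intro H hH1 hH2
  have hff0 : 0 ≤ ff X := by
    by_contra hcon
    push Not at hcon
    have h1 : δ * ff X < 0 := mul_neg_of_pos_of_neg hδ0 hcon
    linarith [hgr.2.2]
  have hH2c : H ≤ c₁ * ff X := hH2.trans (mul_le_mul_of_nonneg_right hδc hff0)
  have hHpos : 0 < H := hgr.2.2.trans_le hH1
  have hHX : H ≤ X := hH2c.trans hgr.1
  set P := (univ : Finset (Equiv.Perm (Fin k))).filter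
        (fun π => X ^ (7 / 8 : ℝ) ≤ ((Occ k q a δ X H π).ncard : ℝ)) with hP
  set bad : Finset ℕ := (univ.filter (fun π => π ∉ P)).biUnion (fun π : Equiv.Perm (Fin k) =>
    (occ_finite k q a δ X H π).toFinset.biUnion (fun m =>
      Finset.Icc (Nat.nth Nat.Prime m - ⌊H⌋₊) (Nat.nth Nat.Prime m))) with hbad
  have hbadcard : (bad.card : ℝ) ≤ X ^ (9 / 10 : ℝ) := by
    have h1 : (bad.card : ℝ) ≤ ∑ π ∈ univ.filter (fun π : Equiv.Perm (Fin k) => π ∉ P),
        (X ^ (7 / 8 : ℝ) * (H + 1)) := by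
      have h2 : bad.card ≤ ∑ π ∈ univ.filter (fun π : Equiv.Perm (Fin k) => π ∉ P),
          ∑ m ∈ (occ_finite k q a δ X H π).toFinset,
            (Finset.Icc (Nat.nth Nat.Prime m - ⌊H⌋₊) (Nat.nth Nat.Prime m)).card :=
        card_biUnion_le.trans (sum_le_sum fun π _ => card_biUnion_le)
      have h3 : (bad.card : ℝ) ≤ ∑ π ∈ univ.filter (fun π : Equiv.Perm (Fin k) => π ∉ P),
          ∑ m ∈ (occ_finite k q a δ X H π).toFinset,
            ((Finset.Icc (Nat.nth Nat.Prime m - ⌊H⌋₊) (Nat.nth Nat.Prime m)).card : ℝ) := by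
        exact_mod_cast h2
      refine h3.trans (sum_le_sum fun π hπ => ?_)
      have h4 : ∀ m ∈ (occ_finite k q a δ X H π).toFinset,
          ((Finset.Icc (Nat.nth Nat.Prime m - ⌊H⌋₊) (Nat.nth Nat.Prime m)).card : ℝ) ≤ H + 1 := by
        intro m _
        rw [Nat.card_Icc]
        have h5 : Nat.nth Nat.Prime m + 1 - (Nat.nth Nat.Prime m - ⌊H⌋₊) ≤ ⌊H⌋₊ + 1 := by omega
        have h6 : ((⌊H⌋₊ : ℕ) : ℝ) ≤ H := Nat.floor_le hHpos.le
        have h7 : ((Nat.nth Nat.Prime m + 1 - (Nat.nth Nat.Prime m - ⌊H⌋₊) : ℕ) : ℝ) ≤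
          ((⌊H⌋₊ + 1 : ℕ) : ℝ) := by exact_mod_cast h5
        push_cast at h7 ⊢
        linarith
      refine (sum_le_sum h4).trans ?_
      rw [sum_const, nsmul_eq_mul]
      apply mul_le_mul_of_nonneg_right _ (by linarith)
      have h8 : π ∉ P := (mem_filter.1 hπ).2
      rw [hP, mem_filter, not_and] at h8
      have h9 := h8 (mem_univ _)
      push Not at h9
      rw [Set.ncard_eq_toFinset_card _ (occ_finite k q a δ X H π)] at h9
      exact h9.le
    refine h1.trans ?_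
    rw [sum_const, nsmul_eq_mul]
    have h2 : ((univ.filter (fun π : Equiv.Perm (Fin k) => π ∉ P)).card : ℝ) ≤ k.factorial := by
      have : (univ.filter (fun π : Equiv.Perm (Fin k) => π ∉ P)).card ≤ k.factorial := by
        refine (card_filter_le _ _).trans ?_
        rw [card_univ, Fintype.card_perm, Fintype.card_fin]
      exact_mod_cast this
    have h3 : 0 ≤ X ^ (7 / 8 : ℝ) := (Real.rpow_pos_of_pos hX0 _).le
    calc ((univ.filter (fun π : Equiv.Perm (Fin k) => π ∉ P)).card : ℝ) * (X ^ (7 / 8 : ℝ) * (H + 1))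
        ≤ (k.factorial : ℝ) * (X ^ (7 / 8 : ℝ) * (c₁ * ff X + 1)) := by gcongr
      _ = (k.factorial : ℝ) * X ^ (7 / 8 : ℝ) * (c₁ * ff X + 1) := by ring
      _ ≤ _ := hgr.2.1
  apply patterns_many
  intro σ
  obtain ⟨n, hn1, hn2, hn3, t, J, ht, hJ, hJex, hJsum⟩ := hX1 σ X (hXσ σ) H hH1 hH2c bad hbadcard
  obtain ⟨e₀, he₀, π, hπ, x', y', hx', hy', hxy⟩ := block hK1 hN.symm hlam hk hc J
    (fun x hx => by rw [hMK]; exact (hJ x hx).1) (hkB.trans hJsum) σ (s σ) (hs' σ) Bp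
    (by rw [hMK, hBp, add_assoc]; exact Nat.le_add_right _ _)
    (by rw [hBp]; exact Nat.le_add_left _ _)
    (by rw [hBp]; exact (Nat.le_add_left N (2 ^ 2 ^ B)).trans (Nat.le_add_right _ _))
  refine ⟨π, ?_, x', y', hx', hy', hxy⟩
  have hlt : ∀ x < 2 ^ B, (t x : ℝ) ≤ H := by
    intro x hx
    have h1 := (ht x hx).2
    have h2 : (y σ x + ε) * H ≤ 1 * H := mul_le_mul_of_nonneg_right (by linarith [(hy1 σ x hx).2]) hHpos.le
    linarith
  have htlt : ∀ x < 2 ^ B, ∀ x' < 2 ^ B, x < x' → t x < t x' := by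
    intro x hx x' hx' hxx
    have h1 := (ht x hx).2
    have h2 := (ht x' hx').1
    have h3 : (y σ x + ε) * H ≤ y σ x' * H := mul_le_mul_of_nonneg_right (hy2 σ x hx x' hx' hxx) hHpos.le
    have h4 : (t x : ℝ) < t x' := by linarith
    exact_mod_cast h4
  have helB : ∀ e < J.card, el J e < 2 ^ B := fun e he => (hJ _ (el_mem J he)).1
  obtain ⟨r, hr⟩ : ∃ r : ℕ → ℕ, r = fun i => t (el J (e₀ + i)) := ⟨_, rfl⟩
  have hre : ∀ i, r i = t (el J (e₀ + i)) := fun i => by rw [hr]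
  have hrlt : ∀ i j, i < j → j ≤ k → r i < r j := by
    intro i j hij hj
    rw [hre, hre]
    exact htlt _ (helB _ (by omega)) _ (helB _ (by omega)) (el_lt J (by omega) (by omega))
  obtain ⟨m, hm⟩ := nth_block n k r hrlt
    (fun i hi => by rw [hre]; exact (hJ _ (el_mem J (by omega))).2.1)
    (by
      intro z hz1 hz2 hz3
      have hzH : (z : ℝ) ≤ H := by
        have h1 : (z : ℝ) ≤ r k := by exact_mod_cast hz2
        rw [hre] at h1
        exact h1.trans (hlt _ (helB _ he₀))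
      obtain ⟨w, hw, hzw⟩ := hJex z hzH hz3
      obtain ⟨e, he, hew⟩ := el_surj J hw
      rw [← hew] at hzw
      have h1 : e₀ ≤ e := by
        by_contra hcon
        push Not at hcon
        have h2 := htlt _ (helB e he) _ (helB e₀ (by omega)) (el_lt J hcon (by omega))
        rw [hre, add_zero] at hz1
        omega
      have h2 : e ≤ e₀ + k := by
        by_contra hcon
        push Not at hcon
        have h3 := htlt _ (helB _ he₀) _ (helB e he) (el_lt J hcon he)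
        rw [hre] at hz2
        omega
      refine ⟨e - e₀, by omega, ?_⟩
      rw [hzw, hre, Nat.add_sub_cancel' h1])
  by_contra hπP
  apply hn3
  have hgap : ∀ i < k, (gap (m + i) : ℝ) = (r (i + 1) : ℝ) - r i := by
    intro i hi
    have h1 := hm i hi.le
    have h2 := hm (i + 1) hi
    rw [← add_assoc] at h2
    have h3 := hrlt i (i + 1) (by omega) hi
    unfold gap
    rw [h1, h2, Nat.cast_sub (by omega)]
    push_cast
    ring
  have hgapb : ∀ i < k, (4 * ε * (gp (s σ) Bp K J (e₀ + i) : ℝ) - ε) * H < gap (m + i) ∧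
      (gap (m + i) : ℝ) < (4 * ε * (gp (s σ) Bp K J (e₀ + i) : ℝ) + ε) * H := by
    intro i hi
    have h1 := ht _ (helB (e₀ + i) (by omega))
    have h2 := ht _ (helB (e₀ + i + 1) (by omega))
    have h3 := hydiff σ _ _ (el_lt J (show e₀ + i < e₀ + i + 1 by omega) (by omega))
    have h4 : gp (s σ) Bp K J (e₀ + i) = hh (s σ) Bp K (el J (e₀ + i + 1)) - hh (s σ) Bp K (el J (e₀ + i)) :=
      rfl
    rw [← h4] at h3
    rw [hgap i hi, hre, hre, ← add_assoc]
    have h5 : y σ (el J (e₀ + i + 1)) * H = y σ (el J (e₀ + i)) * H +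
        4 * ε * (gp (s σ) Bp K J (e₀ + i) : ℝ) * H := by
      have : y σ (el J (e₀ + i + 1)) = y σ (el J (e₀ + i)) + 4 * ε * (gp (s σ) Bp K J (e₀ + i) : ℝ) := by
        linarith
      rw [this]; ring
    have h6 : (y σ (el J (e₀ + i)) + ε) * H = y σ (el J (e₀ + i)) * H + ε * H := by ring
    have h7 : (y σ (el J (e₀ + i + 1)) + ε) * H = y σ (el J (e₀ + i + 1)) * H + ε * H := by ring
    have h8 : (4 * ε * (gp (s σ) Bp K J (e₀ + i) : ℝ) - ε) * H =
      4 * ε * (gp (s σ) Bp K J (e₀ + i) : ℝ) * H - ε * H := by ring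
    have h9 : (4 * ε * (gp (s σ) Bp K J (e₀ + i) : ℝ) + ε) * H =
      4 * ε * (gp (s σ) Bp K J (e₀ + i) : ℝ) * H + ε * H := by ring
    rw [h8, h9]
    rw [h6] at h1
    rw [h7] at h2
    constructor <;> linarith [h1.1, h1.2, h2.1, h2.2]
  have hgpos : ∀ i < k, (1 : ℝ) ≤ gp (s σ) Bp K J (e₀ + i) := by
    intro i hi
    exact hdiff1 σ _ _ (el_lt J (show e₀ + i < e₀ + i + 1 by omega) (by omega))
  have hlo : ∀ i j, i < k → j < k → gp (s σ) Bp K J (e₀ + i) < gp (s σ) Bp K J (e₀ + j) →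
      gap (m + i) < gap (m + j) := by
    intro i j hi hj hij
    have h1 := (hgapb i hi).2
    have h2 := (hgapb j hj).1
    have h3 : (gp (s σ) Bp K J (e₀ + i) : ℝ) + 1 ≤ gp (s σ) Bp K J (e₀ + j) := by exact_mod_cast hij
    have h4 : (4 * ε * (gp (s σ) Bp K J (e₀ + i) : ℝ) + ε) * H ≤
        (4 * ε * (gp (s σ) Bp K J (e₀ + j) : ℝ) - ε) * H := by
      apply mul_le_mul_of_nonneg_right _ hHpos.le
      nlinarith
    have h5 : (gap (m + i) : ℝ) < gap (m + j) := by linarith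
    exact_mod_cast h5
  have hocc : m ∈ Occ k q a δ X H π := by
    refine ⟨?_, ?_, ?_, ?_, ?_⟩
    · have h1 := hm 0 (Nat.zero_le _)
      rw [add_zero] at h1
      rw [h1]
      push_cast
      have : (0 : ℝ) ≤ r 0 := Nat.cast_nonneg _
      linarith
    · rw [hm k le_rfl]
      push_cast
      have h1 : (r k : ℝ) ≤ H := by
        rw [hre]
        exact hlt _ (helB _ he₀)
      linarith
    · intro i hi
      rw [hm i hi, hre]
      exact (hJ _ (el_mem J (by omega))).2.2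
    · intro i hi
      constructor
      · refine le_trans ?_ (hgapb i hi).1.le
        apply mul_le_mul_of_nonneg_right _ hHpos.le
        have := hgpos i hi
        nlinarith
      · rw [hgap i hi]
        have h1 : (r (i + 1) : ℝ) ≤ H := by
          rw [hre]
          exact hlt _ (helB _ (by omega))
        have : (0 : ℝ) ≤ r i := Nat.cast_nonneg _
        linarith
    · intro i j
      rw [hπ i j]
      constructor
      · intro hij
        exact hlo i j i.2 j.2 hij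
      · intro hij
        by_contra hcon
        rcases Nat.lt_or_eq_of_le (not_lt.1 hcon) with h1 | h1
        · have := hlo j i j.2 i.2 h1
          omega
        · have h2 : ¬ π i < π j := by rw [hπ i j]; omega
          have h3 : ¬ π j < π i := by rw [hπ j i]; omega
          have h4 : π i = π j := le_antisymm (not_lt.1 h3) (not_lt.1 h2)
          have h5 : i = j := π.injective h4
          rw [h5] at hij
          exact lt_irrefl _ hij
  rw [hbad, mem_biUnion]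
  refine ⟨π, mem_filter.2 ⟨mem_univ _, hπP⟩, ?_⟩
  rw [mem_biUnion]
  refine ⟨m, (Set.Finite.mem_toFinset _).2 hocc, ?_⟩
  have h1 := hm 0 (Nat.zero_le _)
  rw [add_zero] at h1
  rw [mem_Icc, h1]
  have h2 : r 0 ≤ ⌊H⌋₊ := by
    apply Nat.le_floor
    rw [hre, add_zero]
    exact hlt _ (helB _ (by omega))
  constructor <;> omega

end Pool.Agent.J6H13.RL
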