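import Pool.Agent.J6H13.PR.Win
import Pool.Agent.TH779.Ord.Fn

/-! Consecutive elements in different classes. -/

set_option autoImplicit false

namespace Pool.Agent.J6H13.RL

open Finset
open Pool.Agent.TH779.Ord (fn)
open Pool.Agent.J6H13.PR (Btw window)

theorem fn_bound (L : ℕ) (hL : 1 ≤ L) (m : ℕ) :
    fn (L : ℝ) m ≤ ((if m = 1 then 1 else 0 : ℕ) : ℝ) - ((L : ℝ) - 1) * ((if m = 1 then 0 else m : ℕ) : ℝ) := by
  unfold fn
  have hL' : (1 : ℝ) ≤ L := by exact_mod_cast hL
  by_cases h1 : m = 1
  · subst h1; simp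
  · rw [if_neg h1, if_neg h1]
    rcases Nat.eq_zero_or_pos m with h0 | h0
    · subst h0; simp
    · have h2 : (2 : ℝ) ≤ m := by exact_mod_cast (by omega : 2 ≤ m)
      push_cast
      nlinarith [mul_nonneg (mul_nonneg (by linarith : (0 : ℝ) ≤ L) (by linarith : (0 : ℝ) ≤ (m : ℝ)))
        (by linarith : (0 : ℝ) ≤ (m : ℝ) - 2)]

/-- `k` consecutive elements of `J` in different classes -/
theorem sel (T K k : ℕ) (hk : 1 ≤ k) (J : Finset ℕ) (hJ : ∀ x ∈ J, x / K < T)
    (hsum : (k : ℝ) ≤ ∑ g ∈ range T, fn ((k + 1 : ℕ) : ℝ) (J.filter (fun x => x / K = g)).card) :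
    ∃ S ⊆ J, S.card = k ∧ (∀ y ∈ J, Btw S y → y ∈ S) ∧ ∀ x ∈ S, ∀ y ∈ S, x / K = y / K → x = y := by
  classical
  set m : ℕ → ℕ := fun g => (J.filter (fun x => x / K = g)).card with hm
  set A' := J.filter (fun x => m (x / K) = 1) with hA'
  set G' := J.filter (fun x => m (x / K) ≠ 1) with hG'
  have hAcard : A'.card = ∑ g ∈ range T, (if m g = 1 then 1 else 0) := by
    rw [card_eq_sum_card_fiberwise (f := fun x => x / K) (t := range T)
      (fun x hx => mem_range.2 (hJ x (mem_filter.1 hx).1))]
    apply sum_congr rfl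
    intro g _
    have e : A'.filter (fun x => x / K = g) =
        (J.filter (fun x => x / K = g)).filter (fun _ => m g = 1) := by
      rw [hA', filter_filter, filter_filter]
      apply filter_congr
      intro x _
      constructor
      · rintro ⟨h1, h2⟩
        rw [h2] at h1
        exact ⟨h2, h1⟩
      · rintro ⟨h1, h2⟩
        rw [h1]
        exact ⟨h2, rfl⟩
    rw [e]
    by_cases hg : m g = 1
    · simp only [hg, if_true, filter_true]
      exact hg
    · simp only [hg, if_false, filter_false, card_empty]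
  have hGcard : G'.card = ∑ g ∈ range T, (if m g = 1 then 0 else m g) := by
    rw [card_eq_sum_card_fiberwise (f := fun x => x / K) (t := range T)
      (fun x hx => mem_range.2 (hJ x (mem_filter.1 hx).1))]
    apply sum_congr rfl
    intro g _
    have e : G'.filter (fun x => x / K = g) =
        (J.filter (fun x => x / K = g)).filter (fun _ => ¬ m g = 1) := by
      rw [hG', filter_filter, filter_filter]
      apply filter_congr
      intro x _
      constructor
      · rintro ⟨h1, h2⟩
        rw [h2] at h1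
        exact ⟨h2, h1⟩
      · rintro ⟨h1, h2⟩
        rw [h1]
        exact ⟨h2, rfl⟩
    rw [e]
    by_cases hg : m g = 1
    · simp only [hg, not_true_eq_false, if_true, filter_false, card_empty]
    · simp only [hg, not_false_eq_true, if_false, filter_true]
      rfl
  have hmany : k + k * G'.card ≤ A'.card := by
    have h2 : (k : ℝ) ≤ (A'.card : ℝ) - (((k + 1 : ℕ) : ℝ) - 1) * (G'.card : ℝ) := by
      refine hsum.trans ((sum_le_sum (fun g _ => fn_bound (k + 1) (by omega) (m g))).trans ?_)
      rw [sum_sub_distrib, ← mul_sum, hAcard, hGcard]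
      push_cast
      exact le_rfl
    have h4 : ((k + k * G'.card : ℕ) : ℝ) ≤ (A'.card : ℝ) := by
      push_cast at h2 ⊢
      linarith
    exact_mod_cast h4
  obtain ⟨S, hSA, hScard, hconv, hSG⟩ := window k 0 hk (G'.card + 1) A' G'
    (by
      have : (G'.card + 1) * k = k + k * G'.card := by ring
      omega)
    (by omega)
  refine ⟨S, hSA.trans (filter_subset _ _), hScard, ?_, ?_⟩
  · intro y hy hb
    by_cases hym : m (y / K) = 1
    · exact hconv y (mem_filter.2 ⟨hy, hym⟩) hb
    · exfalso
      have h1 : y ∈ G'.filter (fun y => Btw S y) := mem_filter.2 ⟨mem_filter.2 ⟨hy, hym⟩, hb⟩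
      have h2 := card_pos.2 ⟨y, h1⟩
      omega
  · intro x hx y hy hxy
    have h1 : m (x / K) = 1 := (mem_filter.1 (hSA hx)).2
    rw [hm] at h1
    obtain ⟨z, hz⟩ := card_eq_one.1 h1
    have hx' : x ∈ J.filter (fun u => u / K = x / K) := mem_filter.2 ⟨(mem_filter.1 (hSA hx)).1, rfl⟩
    have hy' : y ∈ J.filter (fun u => u / K = x / K) := mem_filter.2 ⟨(mem_filter.1 (hSA hy)).1, hxy.symm⟩
    rw [hz, mem_singleton] at hx' hy'
    rw [hx', hy']

end Pool.Agent.J6H13.RL
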