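import Pool.Agent.J6H13.RL.Asym
import Pool.Agent.J6H13.RL.Sel

/-! Consecutive primes near `k + 1` of any `C k ^ 2` points. -/

set_option autoImplicit false

namespace Pool.Agent.J6H13.RL

open Finset Filter
open Pool.Agent.TH779.Ord (fn el el_mem el_lt el_surj)
open Pool.Agent.H256R2.SC (ff)
open Pool.Agent.J6H13.PR (Btw)

/-- the `n` with `X < p_n < ... < p_(n+k) ≤ 4 X`, all `≡ a` modulo `q`, whose gaps, divided by `H`, are `δ`-near to
the differences of the points `β (j i)`, for some `j 0 < ... < j k < M` -/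
def Near (k M q a : ℕ) (δ X H : ℝ) (β : ℕ → ℝ) : Set ℕ :=
  {n | X < Nat.nth Nat.Prime n ∧ (Nat.nth Nat.Prime (n + k) : ℝ) ≤ 4 * X ∧
    (∀ i ≤ k, Nat.nth Nat.Prime (n + i) ≡ a [MOD q]) ∧
    ∃ j : ℕ → ℕ, (∀ i < k, j i < j (i + 1)) ∧ j k < M ∧
      ∀ i < k, |(gap (n + i) : ℝ) / H - (β (j (i + 1)) - β (j i))| ≤ δ}

theorem near_finite (k M q a : ℕ) (δ X H : ℝ) (β : ℕ → ℝ) : (Near k M q a δ X H β).Finite := by
  apply Set.Finite.subset (Set.finite_le_nat ⌊4 * X⌋₊)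
  rintro n ⟨-, h2, -⟩
  have hinf : (Set.ofPred Nat.Prime).Infinite := Nat.infinite_setOfPred_prime
  have h1 : n ≤ Nat.nth Nat.Prime (n + k) :=
    (Nat.le_add_right n k).trans ((Nat.nth_strictMono hinf).id_le _)
  have h3 : (n : ℝ) ≤ 4 * X := le_trans (by exact_mod_cast h1) h2
  exact Nat.le_floor h3

theorem points_of (h : StRL) : ∃ C : ℕ, 1 ≤ C ∧ ∀ k : ℕ, 1 ≤ k → ∃ c : ℝ, 0 < c ∧ ∀ δ : ℝ, 0 < δ →
    ∀ q a : ℕ, Squarefree q → a.Coprime q →
    ∃ X₀ : ℝ, ∀ X : ℝ, X₀ ≤ X → ∀ H : ℝ, Real.log X ≤ H → H ≤ c * ff X →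
    ∀ β : ℕ → ℝ, (∀ i < C * k ^ 2, 0 ≤ β i ∧ β i ≤ 1) → (∀ i j, i ≤ j → j < C * k ^ 2 → β i ≤ β j) →
      X ^ (7 / 8 : ℝ) ≤ ((Near k (C * k ^ 2) q a δ X H β).ncard : ℝ) := by
  classical
  obtain ⟨C₁, c₀, hC₁, hc₀, hmain⟩ := place_of h
  obtain ⟨D, hD, hpar⟩ := choose_par hC₁ hc₀
  obtain ⟨C, hC⟩ : ∃ C : ℕ, C = ⌈3 * D + 2⌉₊ + 1 := ⟨_, rfl⟩
  have hC1 : 1 ≤ C := by rw [hC]; exact Nat.le_add_left _ _
  have hCD : 3 * D + 2 ≤ C := by
    rw [hC]
    push_cast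
    linarith [Nat.le_ceil (3 * D + 2)]
  refine ⟨C, hC1, ?_⟩
  intro k hk
  have hk1 : (1 : ℝ) ≤ k := by exact_mod_cast hk
  obtain ⟨B, b, hB1, hbB, hb1, hBk, hb2⟩ := hpar k ((k + 1 + 1 : ℕ) : ℝ) hk (by push_cast; linarith)
    (by push_cast; linarith)
  have hbC : 2 ^ b ≤ C * k ^ 2 := by
    have h1 : (2 : ℝ) ^ b ≤ C * (k : ℝ) ^ 2 := by
      refine hb2.trans ?_
      push_cast
      have h2 : D * ((k : ℝ) + 1 + 1) * k + 2 ≤ (3 * D + 2) * (k : ℝ) ^ 2 := by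
        have h3 : ((k : ℝ) + 1 + 1) * k ≤ 3 * (k : ℝ) ^ 2 := by nlinarith
        have h4 := mul_le_mul_of_nonneg_left h3 hD.le
        nlinarith
      have h5 := mul_le_mul_of_nonneg_right hCD (sq_nonneg (k : ℝ))
      linarith
    exact_mod_cast h1
  obtain ⟨c₁, hc₁, hpl⟩ := hmain B b ((k + 1 + 1 : ℕ) : ℝ) hB1 hbB (by push_cast; linarith) hb1
  refine ⟨c₁ / 4, by positivity, ?_⟩
  intro δ hδ q a hqsf haq
  obtain ⟨K, hK⟩ : ∃ K, K = 2 ^ (B - b) := ⟨_, rfl⟩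
  have hK1 : 1 ≤ K := by rw [hK]; exact Nat.one_le_two_pow
  have hMK : 2 ^ b * K = 2 ^ B := by rw [hK, ← pow_add, Nat.add_sub_cancel' hbB]
  obtain ⟨M, hM⟩ : ∃ M : ℕ, M = ⌈8 / δ⌉₊ + 1 := ⟨_, rfl⟩
  have hM1 : 1 ≤ M := by rw [hM]; exact Nat.le_add_left _ _
  have hMR : (1 : ℝ) ≤ M := by exact_mod_cast hM1
  have hM0 : (0 : ℝ) < M := by linarith
  have hMδ : 8 ≤ δ * M := by
    have h1 : 8 / δ ≤ M := by
      rw [hM]
      push_cast
      linarith [Nat.le_ceil (8 / δ)]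
    rw [div_le_iff₀ hδ] at h1
    linarith
  obtain ⟨ε, hε⟩ : ∃ ε : ℝ, ε = min δ 1 / (64 * 2 ^ B) := ⟨_, rfl⟩
  have hmin0 : 0 < min δ 1 := lt_min hδ one_pos
  have hε0 : 0 < ε := by rw [hε]; positivity
  have hεB : 64 * (ε * 2 ^ B) = min δ 1 := by
    rw [hε]
    field_simp
  have h2B : (1 : ℝ) ≤ 2 ^ B := one_le_pow₀ (by norm_num)
  have hεle : ε ≤ ε * 2 ^ B := by
    have := mul_le_mul_of_nonneg_left h2B hε0.le
    linarith
  have hεδ : 64 * (ε * 2 ^ B) ≤ δ := by rw [hεB]; exact min_le_left _ _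
  have hε1 : 64 * (ε * 2 ^ B) ≤ 1 := by rw [hεB]; exact min_le_right _ _
  -- positions
  set y : (Fin (2 ^ b) → Fin (M + 1)) → ℕ → ℝ := fun u x =>
    1 / 4 + (if h : x / K < 2 ^ b then ((u ⟨x / K, h⟩ : ℕ) : ℝ) else 0) / (4 * M) + 2 * ε * x with hy
  have hdiv : ∀ x < 2 ^ B, x / K < 2 ^ b := by
    intro x hx
    rw [Nat.div_lt_iff_lt_mul hK1, hMK]
    exact hx
  have hy' : ∀ u x (hx : x < 2 ^ B), y u x = 1 / 4 + ((u ⟨x / K, hdiv x hx⟩ : ℕ) : ℝ) / (4 * M) + 2 * ε * x := by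
    intro u x hx
    simp only [hy, hdiv x hx, dite_true]
  have hex : ∀ u : Fin (2 ^ b) → Fin (M + 1), ∃ X0 : ℝ, Monotone u → ∀ X : ℝ, X0 ≤ X → ∀ F : ℝ,
    Real.log X ≤ F → F ≤ c₁ * ff X →
    ∀ bad : Finset ℕ, (bad.card : ℝ) ≤ X ^ (9 / 10 : ℝ) →
    ∃ n : ℕ, X < n ∧ (n : ℝ) ≤ 3 * X ∧ n ∉ bad ∧ ∃ (t : ℕ → ℕ) (J : Finset ℕ),
      (∀ x < 2 ^ B, y u x * F < t x ∧ (t x : ℝ) ≤ (y u x + ε) * F) ∧
      (∀ x ∈ J, x < 2 ^ B ∧ (n + t x).Prime ∧ n + t x ≡ a [MOD q]) ∧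
      (∀ s : ℕ, (s : ℝ) ≤ F → (n + s).Prime → ∃ x ∈ J, s = t x) ∧
      c₀ * B ≤ ∑ g ∈ range (2 ^ b), fn ((k + 1 + 1 : ℕ) : ℝ) (J.filter (fun x => x / 2 ^ (B - b) = g)).card := by
    intro u
    by_cases hu : Monotone u
    · obtain ⟨X0, hX0⟩ := hpl (y u) ε hε0 (by linarith) (by
        intro x hx
        rw [hy' u x hx]
        have h1 : ((u ⟨x / K, hdiv x hx⟩ : ℕ) : ℝ) ≤ M := by
          exact_mod_cast Nat.lt_succ_iff.1 (u ⟨x / K, hdiv x hx⟩).2
        have h2 : ((u ⟨x / K, hdiv x hx⟩ : ℕ) : ℝ) / (4 * M) ≤ 1 / 4 := by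
          rw [div_le_div_iff₀ (by positivity) (by norm_num)]
          linarith
        have h3 : 0 ≤ ((u ⟨x / K, hdiv x hx⟩ : ℕ) : ℝ) / (4 * M) := by positivity
        have h4 : (x : ℝ) ≤ 2 ^ B := by exact_mod_cast hx.le
        have h5 : 0 ≤ ε * x := by positivity
        have h6 : ε * x ≤ ε * 2 ^ B := mul_le_mul_of_nonneg_left h4 hε0.le
        constructor
        · linarith
        · linarith) (by
        intro x hx x' hx' hxx
        rw [hy' u x hx, hy' u x' hx']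
        have h1 : x / K ≤ x' / K := Nat.div_le_div_right hxx.le
        have h2 : ((u ⟨x / K, hdiv x hx⟩ : ℕ) : ℝ) ≤ ((u ⟨x' / K, hdiv x' hx'⟩ : ℕ) : ℝ) := by
          exact_mod_cast hu (show (⟨x / K, hdiv x hx⟩ : Fin (2 ^ b)) ≤ ⟨x' / K, hdiv x' hx'⟩ from h1)
        have h3 : ((u ⟨x / K, hdiv x hx⟩ : ℕ) : ℝ) / (4 * M) ≤ ((u ⟨x' / K, hdiv x' hx'⟩ : ℕ) : ℝ) / (4 * M) :=
          div_le_div_of_nonneg_right h2 (by positivity)
        have h4 : (x : ℝ) + 1 ≤ x' := by exact_mod_cast hxx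
        have h5 : ε * ((x : ℝ) + 1) ≤ ε * x' := mul_le_mul_of_nonneg_left h4 hε0.le
        nlinarith) q a hqsf haq
      exact ⟨X0, fun _ => hX0⟩
    · exact ⟨0, fun h => absurd h hu⟩
  choose X1 hX1 using hex
  rw [← Filter.eventually_atTop]
  have hall : ∀ᶠ X : ℝ in atTop, ∀ u, X1 u ≤ X := Filter.eventually_all.2 fun u => eventually_ge_atTop _
  filter_upwards [hall, ev_growth 1 c₁, eventually_gt_atTop (0 : ℝ)] with X hXu hgr hX0
  intro H hH1 hH2 β hβ hβm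
  obtain ⟨F, hF⟩ : ∃ F, F = 4 * H := ⟨_, rfl⟩
  have hHpos : 0 < H := hgr.2.2.trans_le hH1
  have hFpos : 0 < F := by rw [hF]; linarith
  have hF1 : Real.log X ≤ F := by rw [hF]; linarith
  have hF2 : F ≤ c₁ * ff X := by rw [hF]; linarith
  have hFX : F ≤ X := hF2.trans hgr.1
  set W := Near k (C * k ^ 2) q a δ X H β with hW
  have hWfin : W.Finite := near_finite k (C * k ^ 2) q a δ X H β
  by_contra hcon
  push Not at hcon
  set bad : Finset ℕ := hWfin.toFinset.biUnion (fun m =>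
      Finset.Icc (Nat.nth Nat.Prime m - ⌊F⌋₊) (Nat.nth Nat.Prime m)) with hbad
  have hbadcard : (bad.card : ℝ) ≤ X ^ (9 / 10 : ℝ) := by
    have h2 : bad.card ≤ ∑ m ∈ hWfin.toFinset,
            (Finset.Icc (Nat.nth Nat.Prime m - ⌊F⌋₊) (Nat.nth Nat.Prime m)).card := card_biUnion_le
    have h3 : (bad.card : ℝ) ≤ ∑ m ∈ hWfin.toFinset,
            ((Finset.Icc (Nat.nth Nat.Prime m - ⌊F⌋₊) (Nat.nth Nat.Prime m)).card : ℝ) := by
      exact_mod_cast h2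
    have h4 : ∀ m ∈ hWfin.toFinset,
          ((Finset.Icc (Nat.nth Nat.Prime m - ⌊F⌋₊) (Nat.nth Nat.Prime m)).card : ℝ) ≤ F + 1 := by
      intro m _
      rw [Nat.card_Icc]
      have h5 : Nat.nth Nat.Prime m + 1 - (Nat.nth Nat.Prime m - ⌊F⌋₊) ≤ ⌊F⌋₊ + 1 := by omega
      have h6 : ((⌊F⌋₊ : ℕ) : ℝ) ≤ F := Nat.floor_le hFpos.le
      have h7 : ((Nat.nth Nat.Prime m + 1 - (Nat.nth Nat.Prime m - ⌊F⌋₊) : ℕ) : ℝ) ≤
        ((⌊F⌋₊ + 1 : ℕ) : ℝ) := by exact_mod_cast h5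
      push_cast at h7 ⊢
      linarith
    refine (h3.trans (sum_le_sum h4)).trans ?_
    rw [sum_const, nsmul_eq_mul]
    rw [Set.ncard_eq_toFinset_card _ hWfin] at hcon
    have h8 : 0 ≤ X ^ (7 / 8 : ℝ) := (Real.rpow_pos_of_pos hX0 _).le
    calc (hWfin.toFinset.card : ℝ) * (F + 1)
        ≤ X ^ (7 / 8 : ℝ) * (c₁ * ff X + 1) := mul_le_mul hcon.le (by linarith) (by linarith) h8
      _ = 1 * X ^ (7 / 8 : ℝ) * (c₁ * ff X + 1) := by ring
      _ ≤ _ := hgr.2.1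
  -- rounded points
  have hubd : ∀ g : Fin (2 ^ b), ⌊β g * M⌋₊ < M + 1 := by
    intro g
    rw [Nat.lt_succ_iff]
    have h1 := (hβ g (g.2.trans_le hbC)).2
    have h2 : β g * M ≤ M := by nlinarith
    exact_mod_cast (Nat.floor_le_of_le (by exact_mod_cast h2) : ⌊β g * M⌋₊ ≤ M)
  set u : Fin (2 ^ b) → Fin (M + 1) := fun g => ⟨⌊β g * M⌋₊, hubd g⟩ with hu
  have humono : Monotone u := by
    intro g g' hgg
    show ⌊β g * M⌋₊ ≤ ⌊β g' * M⌋₊
    apply Nat.floor_le_floor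
    exact mul_le_mul_of_nonneg_right (hβm g g' hgg (g'.2.trans_le hbC)) hM0.le
  have hunear : ∀ g : Fin (2 ^ b), |((u g : ℕ) : ℝ) / M - β g| ≤ δ / 8 := by
    intro g
    have h0 := (hβ g (g.2.trans_le hbC)).1
    have h1 : ((u g : ℕ) : ℝ) ≤ β g * M := Nat.floor_le (by positivity)
    have h2 : β g * M < (u g : ℕ) + 1 := Nat.lt_floor_add_one _
    have h3 : ((u g : ℕ) : ℝ) / M ≤ β g := by rw [div_le_iff₀ hM0]; exact h1
    have h4 : β g ≤ ((u g : ℕ) : ℝ) / M + δ / 8 := by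
      have h5 : β g * M ≤ (((u g : ℕ) : ℝ) / M + δ / 8) * M := by
        have : (((u g : ℕ) : ℝ) / M + δ / 8) * M = (u g : ℕ) + δ * M / 8 := by
          field_simp
        rw [this]
        linarith
      exact le_of_mul_le_mul_right h5 hM0
    rw [abs_le]
    constructor <;> linarith
  obtain ⟨n, hn1, hn2, hn3, t, J, ht, hJ, hJex, hJsum⟩ := hX1 u humono X (hXu u) F hF1 hF2 bad hbadcard
  rw [← hK] at hJsum
  obtain ⟨S, hSJ, hScard, hSconv, hSinj⟩ := sel (2 ^ b) K (k + 1) (by omega) J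
    (fun x hx => hdiv x (hJ x hx).1) (by push_cast at hJsum ⊢; linarith)
  have hlt : ∀ x < 2 ^ B, (t x : ℝ) ≤ F := by
    intro x hx
    have h1 := (ht x hx).2
    have h2 : (y u x + ε) * F ≤ 1 * F := by
      apply mul_le_mul_of_nonneg_right _ hFpos.le
      rw [hy' u x hx]
      have h1 : ((u ⟨x / K, hdiv x hx⟩ : ℕ) : ℝ) ≤ M := by
        exact_mod_cast Nat.lt_succ_iff.1 (u ⟨x / K, hdiv x hx⟩).2
      have h2 : ((u ⟨x / K, hdiv x hx⟩ : ℕ) : ℝ) / (4 * M) ≤ 1 / 4 := by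
        rw [div_le_div_iff₀ (by positivity) (by norm_num)]
        linarith
      have h4 : (x : ℝ) ≤ 2 ^ B := by exact_mod_cast hx.le
      have h6 : ε * x ≤ ε * 2 ^ B := mul_le_mul_of_nonneg_left h4 hε0.le
      linarith
    linarith
  have htlt : ∀ x < 2 ^ B, ∀ x' < 2 ^ B, x < x' → t x < t x' := by
    intro x hx x' hx' hxx
    have h1 := (ht x hx).2
    have h2 := (ht x' hx').1
    have h3 : (y u x + ε) * F ≤ y u x' * F := by
      apply mul_le_mul_of_nonneg_right _ hFpos.le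
      rw [hy' u x hx, hy' u x' hx']
      have h1 : x / K ≤ x' / K := Nat.div_le_div_right hxx.le
      have h2 : ((u ⟨x / K, hdiv x hx⟩ : ℕ) : ℝ) ≤ ((u ⟨x' / K, hdiv x' hx'⟩ : ℕ) : ℝ) := by
        exact_mod_cast humono (show (⟨x / K, hdiv x hx⟩ : Fin (2 ^ b)) ≤ ⟨x' / K, hdiv x' hx'⟩ from h1)
      have h3 : ((u ⟨x / K, hdiv x hx⟩ : ℕ) : ℝ) / (4 * M) ≤ ((u ⟨x' / K, hdiv x' hx'⟩ : ℕ) : ℝ) / (4 * M) :=
        div_le_div_of_nonneg_right h2 (by positivity)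
      have h4 : (x : ℝ) + 1 ≤ x' := by exact_mod_cast hxx
      have h5 : ε * ((x : ℝ) + 1) ≤ ε * x' := mul_le_mul_of_nonneg_left h4 hε0.le
      nlinarith
    have h4 : (t x : ℝ) < t x' := by linarith
    exact_mod_cast h4
  have hSB : ∀ e < S.card, el S e < 2 ^ B := fun e he => (hJ _ (hSJ (el_mem S he))).1
  obtain ⟨r, hr⟩ : ∃ r : ℕ → ℕ, r = fun i => t (el S i) := ⟨_, rfl⟩
  have hre : ∀ i, r i = t (el S i) := fun i => by rw [hr]
  have hrlt : ∀ i j, i < j → j ≤ k → r i < r j := by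
    intro i j hij hj
    rw [hre, hre]
    exact htlt _ (hSB _ (by omega)) _ (hSB _ (by omega)) (el_lt S hij (by omega))
  obtain ⟨m, hm⟩ := nth_block n k r hrlt
    (fun i hi => by rw [hre]; exact (hJ _ (hSJ (el_mem S (by omega)))).2.1)
    (by
      intro z hz1 hz2 hz3
      have hzF : (z : ℝ) ≤ F := by
        have h1 : (z : ℝ) ≤ r k := by exact_mod_cast hz2
        rw [hre] at h1
        exact h1.trans (hlt _ (hSB _ (by omega)))
      obtain ⟨w, hw, hzw⟩ := hJex z hzF hz3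
      have hwB := (hJ w hw).1
      have h1 : el S 0 ≤ w := by
        by_contra hcon
        push Not at hcon
        have h2 := htlt w hwB _ (hSB 0 (by omega)) hcon
        rw [hre] at hz1
        omega
      have h2 : w ≤ el S k := by
        by_contra hcon
        push Not at hcon
        have h3 := htlt _ (hSB k (by omega)) w hwB hcon
        rw [hre] at hz2
        omega
      have h3 : w ∈ S := hSconv w hw ⟨⟨_, el_mem S (by omega), h1⟩, _, el_mem S (by omega), h2⟩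
      obtain ⟨e, he, hew⟩ := el_surj S h3
      exact ⟨e, by omega, by rw [hzw, hre, hew]⟩)
  apply hn3
  have hmem : m ∈ W := by
    refine ⟨?_, ?_, ?_, fun i => el S i / K, ?_, ?_, ?_⟩
    · have h1 := hm 0 (Nat.zero_le _)
      rw [add_zero] at h1
      rw [h1]
      push_cast
      have : (0 : ℝ) ≤ r 0 := Nat.cast_nonneg _
      linarith
    · rw [hm k le_rfl]
      push_cast
      have h1 : (r k : ℝ) ≤ F := by
        rw [hre]
        exact hlt _ (hSB _ (by omega))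
      linarith
    · intro i hi
      rw [hm i hi, hre]
      exact (hJ _ (hSJ (el_mem S (by omega)))).2.2
    · intro i hi
      have h1 : el S i < el S (i + 1) := el_lt S (by omega) (by omega)
      have h2 : el S i / K ≤ el S (i + 1) / K := Nat.div_le_div_right h1.le
      apply lt_of_le_of_ne h2
      intro h3
      have h4 := hSinj _ (el_mem S (by omega)) _ (el_mem S (by omega)) h3
      omega
    · exact (hdiv _ (hSB k (by omega))).trans_le hbC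
    · intro i hi
      have hi1 : el S i < 2 ^ B := hSB i (by omega)
      have hi2 : el S (i + 1) < 2 ^ B := hSB (i + 1) (by omega)
      have h1 := hm i hi.le
      have h2 := hm (i + 1) hi
      rw [← add_assoc] at h2
      have h3 := hrlt i (i + 1) (by omega) hi
      have hgap : (gap (m + i) : ℝ) = (r (i + 1) : ℝ) - r i := by
        unfold gap
        rw [h1, h2, Nat.cast_sub (by omega)]
        push_cast
        ring
      have h4 := ht _ hi1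
      have h5 := ht _ hi2
      rw [hy' u _ hi1, ← hre] at h4
      rw [hy' u _ hi2, ← hre] at h5
      have h6 := hunear ⟨el S i / K, hdiv _ hi1⟩
      have h7 := hunear ⟨el S (i + 1) / K, hdiv _ hi2⟩
      set U := ((u ⟨el S i / K, hdiv _ hi1⟩ : ℕ) : ℝ) with hU
      set V := ((u ⟨el S (i + 1) / K, hdiv _ hi2⟩ : ℕ) : ℝ) with hV
      have e1 : ∀ Z x : ℝ, (1 / 4 + Z / (4 * M) + 2 * ε * x) * F = (1 + Z / M + 8 * (ε * x)) * H := by
        intro Z x
        rw [hF]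
        field_simp
        ring
      have e2 : ∀ Z x : ℝ, (1 / 4 + Z / (4 * M) + 2 * ε * x + ε) * F =
          (1 + Z / M + 8 * (ε * x) + 4 * ε) * H := by
        intro Z x
        rw [hF]
        field_simp
        ring
      rw [e1, e2] at h4 h5
      have hx1 : (el S i : ℝ) ≤ 2 ^ B := by exact_mod_cast hi1.le
      have hx2 : (el S (i + 1) : ℝ) ≤ 2 ^ B := by exact_mod_cast hi2.le
      have h8 : ε * (el S i : ℝ) ≤ ε * 2 ^ B := mul_le_mul_of_nonneg_left hx1 hε0.le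
      have h9 : ε * (el S (i + 1) : ℝ) ≤ ε * 2 ^ B := mul_le_mul_of_nonneg_left hx2 hε0.le
      have h10 : 0 ≤ ε * (el S i : ℝ) := by positivity
      have h11 : 0 ≤ ε * (el S (i + 1) : ℝ) := by positivity
      rw [hgap]
      have h12 : ((r (i + 1) : ℝ) - r i) / H ≤ V / M - U / M + 12 * (ε * 2 ^ B) := by
        rw [div_le_iff₀ hHpos]
        have : (r (i + 1) : ℝ) - r i ≤ (1 + V / M + 8 * (ε * (el S (i + 1) : ℝ)) + 4 * ε) * H -
            (1 + U / M + 8 * (ε * (el S i : ℝ))) * H := by linarith [h4.1, h5.2]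
        refine this.trans ?_
        rw [← sub_mul]
        apply mul_le_mul_of_nonneg_right _ hHpos.le
        linarith
      have h13 : V / M - U / M - 12 * (ε * 2 ^ B) ≤ ((r (i + 1) : ℝ) - r i) / H := by
        rw [le_div_iff₀ hHpos]
        have : (1 + V / M + 8 * (ε * (el S (i + 1) : ℝ))) * H -
            (1 + U / M + 8 * (ε * (el S i : ℝ)) + 4 * ε) * H ≤ (r (i + 1) : ℝ) - r i := by linarith [h4.2, h5.1]
        refine le_trans ?_ this
        rw [← sub_mul]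
        apply mul_le_mul_of_nonneg_right _ hHpos.le
        linarith
      rw [abs_le] at h6 h7 ⊢
      simp only at h6 h7
      constructor <;> linarith [h6.1, h6.2, h7.1, h7.2]
  rw [hbad, mem_biUnion]
  refine ⟨m, (Set.Finite.mem_toFinset _).2 hmem, ?_⟩
  have h1 := hm 0 (Nat.zero_le _)
  rw [add_zero] at h1
  rw [mem_Icc, h1]
  have h2 : r 0 ≤ ⌊F⌋₊ := by
    apply Nat.le_floor
    rw [hre]
    exact hlt _ (hSB _ (by omega))
  constructor <;> omega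

end Pool.Agent.J6H13.RL
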